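import Mathlib

set_option autoImplicit false
set_option linter.unusedSectionVars false
set_option linter.style.haveILetI false

namespace Pool.Agent.H.MP_4a16d5_al

open Finset

section loc
variable {R : Type} [Ring R] [Finite R]

theorem ded {a b : R} (h : a * b = 1) : b * a = 1 := by
  have hinj : Function.Injective (fun x : R => b * x) := by
    intro x y hxy
    have : a * (b * x) = a * (b * y) := by simp only at hxy; rw [hxy]
    simpa [← mul_assoc, h] using this
  obtain ⟨c, hc⟩ := (Finite.injective_iff_surjective.1 hinj) 1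
  simp only at hc
  have : a = c := by
    calc a = a * (b * c) := by rw [hc, mul_one]
      _ = c := by rw [← mul_assoc, h, one_mul]
  rw [this]; exact hc

theorem unit_of_mul {r j : R} (h : IsUnit (r * j)) : IsUnit j := by
  obtain ⟨u, hu⟩ := h
  have h1 : ((u⁻¹ : Rˣ) * r : R) * j = 1 := by rw [mul_assoc, ← hu]; simp
  exact ⟨⟨j, _, ded h1, h1⟩, rfl⟩

variable [IsLocalRing R]

theorem ex_prime_nonunit (n : ℕ) : n ≠ 0 → ¬ IsUnit (n : R) → ∃ p : ℕ, p.Prime ∧ ¬ IsUnit (p : R) := by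
  induction n using Nat.recOnMul with
  | zero => intro h; exact absurd rfl h
  | one => intro _ h; exact absurd (by simp) h
  | prime p hp => intro _ h; exact ⟨p, hp, h⟩
  | mul a b ha hb =>
    intro h0 h
    by_cases h1 : IsUnit (a : R)
    · by_cases h2 : IsUnit (b : R)
      · exact absurd (by push_cast; exact h1.mul h2) h
      · exact hb (fun e => h0 (by simp [e])) h2
    · exact ha (fun e => h0 (by simp [e])) h1

theorem one_sub_unit {x : R} (h : ¬ IsUnit x) : IsUnit (1 - x) := by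
  rcases IsLocalRing.isUnit_or_isUnit_of_add_one (a := x) (b := 1 - x) (by abel) with h1 | h1
  · exact absurd h1 h
  · exact h1

theorem ex_p : ∃ p k : ℕ, p.Prime ∧ 1 ≤ k ∧ ¬ IsUnit (p : R) ∧ (p : R) ^ k = 0 := by
  have := Fintype.ofFinite R
  have h0 : ((Fintype.card R : ℕ) : R) = 0 := by
    have := card_nsmul_eq_zero (G := R) (x := (1 : R))
    simpa using this
  obtain ⟨p, hp, hu⟩ := ex_prime_nonunit (R := R) (Fintype.card R) Fintype.card_ne_zero
    (by rw [h0]; exact not_isUnit_zero)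
  obtain ⟨i, j, hij, he⟩ := Finite.exists_ne_map_eq_of_infinite (fun n : ℕ => (p : R) ^ n)
  wlog hlt : i < j generalizing i j
  · exact this j i (Ne.symm hij) he.symm (by omega)
  obtain ⟨d, rfl⟩ := Nat.exists_eq_add_of_lt hlt
  have h1 : ¬ IsUnit ((p : R) ^ d * p) := fun h => hu (unit_of_mul h)
  have h2 := one_sub_unit h1
  have h3 : (p : R) ^ i * (1 - (p : R) ^ d * p) = 0 := by
    rw [mul_sub, mul_one, ← mul_assoc, ← pow_add, ← pow_succ, ← he, sub_self]
  refine ⟨p, i + 1, hp, by omega, hu, ?_⟩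
  rw [pow_succ, (h2.mul_left_eq_zero).1 h3, zero_mul]

/-- the nonunits as an additive subgroup -/
def Jr (R : Type) [Ring R] [IsLocalRing R] : AddSubgroup R where
  carrier := {x | ¬ IsUnit x}
  zero_mem' := by simp
  add_mem' := fun ha hb => IsLocalRing.nonunits_add ha hb
  neg_mem' := fun {x} hx h => hx (by simpa using h.neg)

theorem ex_g0 {p : ℕ} [Fact p.Prime] {A V : Type} [AddCommGroup A] [AddCommGroup V]
    [Module (ZMod p) V] [Finite V] (π : A →+ V) (hπ : Function.Surjective π) :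
    ∃ (f : ℕ) (g : Fin f → A), (∀ r : A, ∃ x : Fin f → ℤ, π (r - ∑ s, x s • g s) = 0) ∧
      ∀ x : Fin f → ℤ, π (∑ s, x s • g s) = 0 → ∀ s, (p : ℤ) ∣ x s := by
  have : Module.Finite (ZMod p) V := Module.Finite.of_finite
  let b := Module.finBasis (ZMod p) V
  choose g hg using fun s => hπ (b s)
  have key : ∀ x : Fin (Module.finrank (ZMod p) V) → ℤ,
      π (∑ s, x s • g s) = ∑ s, ((x s : ℤ) : ZMod p) • b s := by
    intro x
    rw [map_sum]
    refine sum_congr rfl fun s _ => ?_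
    rw [map_zsmul, hg, Int.cast_smul_eq_zsmul]
  refine ⟨_, g, fun r => ?_, fun x hx s => ?_⟩
  · refine ⟨fun s => ((b.repr (π r) s).val : ℤ), ?_⟩
    rw [map_sub, key]
    simp
  · rw [key] at hx
    have := Fintype.linearIndependent_iff.1 b.linearIndependent _ hx s
    exact (ZMod.intCast_zmod_eq_zero_iff_dvd _ _).1 this

theorem ex_g {p : ℕ} (hp : p.Prime) (hu : ¬ IsUnit (p : R)) :
    ∃ (f : ℕ) (g : Fin f → R), (∀ r : R, ∃ x : Fin f → ℤ, ¬ IsUnit (r - ∑ s, x s • g s)) ∧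
      ∀ x : Fin f → ℤ, ¬ IsUnit (∑ s, x s • g s) → ∀ s, (p : ℤ) ∣ x s := by
  have := Fact.mk hp
  have hJ : ∀ x : R, p • x ∈ Jr R := by
    intro x
    show ¬ IsUnit _
    rw [nsmul_eq_mul, Nat.cast_comm]
    exact fun h => hu (unit_of_mul h)
  obtain ⟨f, g, h1, h2⟩ := @ex_g0 p _ R (R ⧸ Jr R) _ _ (QuotientAddGroup.zmodModule hJ) _
    (QuotientAddGroup.mk' (Jr R)) (QuotientAddGroup.mk'_surjective _)
  refine ⟨f, g, fun r => ?_, fun x hx => h2 x ?_⟩
  · obtain ⟨x, hx⟩ := h1 r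
    exact ⟨x, (QuotientAddGroup.eq_zero_iff _).1 hx⟩
  · exact (QuotientAddGroup.eq_zero_iff _).2 hx

theorem ex_step {p k : ℕ} (hk : (p : R) ^ k = 0) (L : Ideal R) (hL : L ≠ ⊤) :
    ∃ (a : ℕ) (b : R), a ≤ k ∧ (p : R) ^ a * b = 0 ∧ b ∉ L ∧ (∀ j, ¬ IsUnit j → j * b ∈ L) ∧
      ∀ e y, e < a → (p : R) ^ e * y = 0 → y ∈ L := by
  classical
  have hex : ∃ a : ℕ, ∃ y, (p : R) ^ a * y = 0 ∧ y ∉ L :=
    ⟨k, 1, by simp [hk], fun h => hL ((Ideal.eq_top_iff_one _).2 h)⟩
  have hle : Nat.find hex ≤ k :=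
    Nat.find_min' hex ⟨1, by simp [hk], fun h => hL ((Ideal.eq_top_iff_one _).2 h)⟩
  have hex2 : ∃ n : ℕ, ∃ y, ((p : R) ^ Nat.find hex * y = 0 ∧ y ∉ L) ∧
      Nat.card (Ideal.span {y} : Ideal R) = n := by
    obtain ⟨y, hy⟩ := Nat.find_spec hex
    exact ⟨_, y, hy, rfl⟩
  obtain ⟨b, ⟨hb1, hb2⟩, hb3⟩ := Nat.find_spec hex2
  refine ⟨Nat.find hex, b, hle, hb1, hb2, fun j hj => ?_, fun e y he hy => ?_⟩
  · by_contra hc
    have h1 : (p : R) ^ Nat.find hex * (j * b) = 0 := by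
      rw [← mul_assoc, ← Nat.cast_pow, Nat.cast_comm, mul_assoc, Nat.cast_pow, hb1, mul_zero]
    have h2 := Nat.find_min' hex2 ⟨j * b, ⟨h1, hc⟩, rfl⟩
    have h3 : (Ideal.span {j * b} : Ideal R) ≤ Ideal.span {b} := by
      rw [Ideal.span_le, Set.singleton_subset_iff]
      exact Ideal.mul_mem_left _ _ (Ideal.subset_span rfl)
    have h4 : ((Ideal.span {j * b} : Ideal R) : Set R) = (Ideal.span {b} : Ideal R) := by
      apply Set.eq_of_subset_of_ncard_le h3
      rw [← hb3] at h2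
      exact h2
    have h5 : b ∈ (Ideal.span {j * b} : Ideal R) := by
      have : b ∈ ((Ideal.span {b} : Ideal R) : Set R) := Ideal.subset_span rfl
      rw [← h4] at this; exact this
    obtain ⟨r, hr⟩ := Ideal.mem_span_singleton'.1 h5
    have h6 := one_sub_unit (x := r * j) (fun h => hj (unit_of_mul h))
    have h7 : (1 - r * j) * b = 0 := by rw [sub_mul, one_mul, mul_assoc, hr, sub_self]
    rw [(h6.mul_right_eq_zero).1 h7] at hb2
    exact hb2 L.zero_mem
  · by_contra hc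
    exact Nat.find_min hex he ⟨y, hy, hc⟩

theorem ex_chain {p k : ℕ} (hu : ¬ IsUnit (p : R)) (hk : (p : R) ^ k = 0) :
    ∃ (l : ℕ) (L : ℕ → Ideal R) (a : ℕ → ℕ) (b : ℕ → R), L 0 = Ideal.span {(p : R)} ∧
      L (l + 1) = ⊤ ∧ (∀ i, L (i + 1) = L i ⊔ Ideal.span {b i}) ∧
      ∀ i ≤ l, a i ≤ k ∧ (p : R) ^ a i * b i = 0 ∧ b i ∉ L i ∧ (∀ j, ¬ IsUnit j → j * b i ∈ L i) ∧
        ∀ e y, e < a i → (p : R) ^ e * y = 0 → y ∈ L i := by
  classical
  choose! fa fb hab using ex_step (R := R) hk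
  obtain ⟨L, hL0, hL⟩ : ∃ L : ℕ → Ideal R, L 0 = Ideal.span {(p : R)} ∧
      ∀ i, L (i + 1) = L i ⊔ Ideal.span {fb (L i)} :=
    ⟨fun n => Nat.rec (Ideal.span {(p : R)}) (fun _ I => I ⊔ Ideal.span {fb I}) n, rfl, fun _ => rfl⟩
  have hex : ∃ n, L n = ⊤ := by
    by_contra hc
    push Not at hc
    have hs : StrictMono L := strictMono_nat_of_lt_succ fun n => by
      rw [hL]
      refine lt_of_le_of_ne le_sup_left fun h => (hab _ (hc n)).2.2.1 ?_
      have : fb (L n) ∈ L n ⊔ Ideal.span {fb (L n)} :=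
        Ideal.mem_sup_right (Ideal.subset_span rfl)
      rw [← h] at this; exact this
    haveI : Finite (Ideal R) := Finite.of_injective (fun I : Ideal R => (I : Set R))
      SetLike.coe_injective
    exact not_injective_infinite_finite L hs.injective
  have h0 : Nat.find hex ≠ 0 := by
    intro h
    have h1 := Nat.find_spec hex
    rw [h] at h1
    have h2 : (1 : R) ∈ Ideal.span {(p : R)} := by
      rw [← hL0, h1]; trivial
    obtain ⟨r, hr⟩ := Ideal.mem_span_singleton'.1 h2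
    exact hu (unit_of_mul (by rw [hr]; exact isUnit_one))
  obtain ⟨l, hl⟩ := Nat.exists_eq_succ_of_ne_zero h0
  refine ⟨l, L, fun i => fa (L i), fun i => fb (L i), hL0, ?_, hL, fun i hi => hab _ ?_⟩
  · have := Nat.find_spec hex
    rw [hl] at this; exact this
  · exact Nat.find_min hex (by omega)

end loc

end Pool.Agent.H.MP_4a16d5_al
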