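import Pool.Agent.H.MP_4a16d5_al.A

set_option autoImplicit false
set_option linter.unusedSectionVars false

namespace Pool.Agent.H.MP_4a16d5_al

open Finset

/-- cost of an entry -/
def cst (a : ℕ → ℕ) (i j : ℕ) : ℕ := max (a i - a j) (if j ≤ i then 1 else 0)

theorem ex_basis (R : Type) [Ring R] [Finite R] [IsLocalRing R] :
    ∃ (p k l f : ℕ) (a : ℕ → ℕ) (B : Fin f × Fin (l + 1) → R) (β : R → Fin f → Fin f → ℤ),
      p.Prime ∧ 1 ≤ k ∧ (∀ i j, i ≤ j → j ≤ l → a i ≤ a j) ∧ (∀ i ≤ l, 1 ≤ a i ∧ a i ≤ k) ∧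
      (∀ y, (p : ℤ) ^ a y.2 • B y = 0) ∧ (∀ r, ∃ x : Fin f × Fin (l + 1) → ℤ, ∑ y, x y • B y = r) ∧
      (∀ x : Fin f × Fin (l + 1) → ℤ, ∑ y, x y • B y = 0 → ∀ y, (p : ℤ) ^ a y.2 ∣ x y) ∧
      ∀ r z (x : Fin f × Fin (l + 1) → ℤ), ∑ y, x y • B y = r * B z →
        ∀ y, (p : ℤ) ^ cst a y.2 z.2 ∣ x y - if y.2 = z.2 then β r y.1 z.1 else 0 := by
  obtain ⟨p, k, hp, hk, hu, hpk⟩ := ex_p (R := R)
  obtain ⟨f, g, hg1, hg2⟩ := ex_g hp hu
  obtain ⟨l, L, a, b, hL0, hLt, hL, hab⟩ := ex_chain hu hpk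
  have Lm : Monotone L := monotone_nat_of_le_succ fun n => by rw [hL]; exact le_sup_left
  have pL : ∀ (y : R) i, (p : R) * y ∈ L i := fun y i => Lm (Nat.zero_le i) (by
    rw [hL0, Nat.cast_comm]; exact Ideal.mul_mem_left _ _ (Ideal.subset_span rfl))
  have bL : ∀ i, b i ∈ L (i + 1) := fun i => by
    rw [hL]; exact Ideal.mem_sup_right (Ideal.subset_span rfl)
  obtain ⟨B, hB⟩ : ∃ B : Fin f × Fin (l + 1) → R, ∀ y, B y = g y.1 * b y.2 := ⟨_, fun _ => rfl⟩
  have hle : ∀ i : Fin (l + 1), (i : ℕ) ≤ l := fun i => Nat.lt_succ_iff.1 i.2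
  have hkill : ∀ y, (p : ℤ) ^ a y.2 • B y = 0 := by
    intro y
    rw [zsmul_eq_mul, hB, ← mul_assoc, Int.cast_comm, mul_assoc]
    push_cast
    rw [(hab _ (hle _)).2.1, mul_zero]
  choose β0 hβ0 using hg1
  have sp1 : ∀ t ≤ l + 1, ∀ y ∈ L t, ∃ m ∈ Submodule.span ℤ (Set.range B), ∃ z, y = m + p * z := by
    intro t
    induction t with
    | zero =>
      intro _ y hy
      rw [hL0] at hy
      obtain ⟨r, hr⟩ := Ideal.mem_span_singleton'.1 hy
      exact ⟨0, zero_mem _, r, by rw [zero_add, Nat.cast_comm, hr]⟩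
    | succ t ih =>
      intro ht y hy
      rw [hL] at hy
      obtain ⟨y1, h1, y2, h2, rfl⟩ := Submodule.mem_sup.1 hy
      obtain ⟨r, rfl⟩ := Ideal.mem_span_singleton'.1 h2
      have h3 := (hab t (by omega)).2.2.2.1 _ (hβ0 r)
      obtain ⟨m, hm, z, hz⟩ := ih (by omega) _ ((L t).add_mem h1 h3)
      refine ⟨m + ∑ s, β0 r s • B (s, ⟨t, by omega⟩), add_mem hm (sum_mem fun s _ =>
        Submodule.smul_mem _ _ (Submodule.subset_span ⟨_, rfl⟩)), z, ?_⟩
      have : ∑ s, β0 r s • B (s, ⟨t, by omega⟩) = (∑ s, β0 r s • g s) * b t := by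
        rw [sum_mul]; exact sum_congr rfl fun s _ => by rw [hB, smul_mul_assoc]
      rw [this, add_right_comm, ← hz, sub_mul]; abel
  have sp2 : ∀ n : ℕ, ∀ y : R, ∃ m ∈ Submodule.span ℤ (Set.range B), ∃ z, y = m + (p : R) ^ n * z := by
    intro n
    induction n with
    | zero => intro y; exact ⟨0, zero_mem _, y, by simp⟩
    | succ n ih =>
      intro y
      obtain ⟨m, hm, z, hz⟩ := ih y
      obtain ⟨m', hm', z', hz'⟩ := sp1 (l + 1) le_rfl z (by rw [hLt]; trivial)
      refine ⟨m + ((p : ℤ) ^ n) • m', add_mem hm (Submodule.smul_mem _ _ hm'), z', ?_⟩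
      rw [hz, hz', zsmul_eq_mul]; push_cast
      rw [mul_add, pow_succ, mul_assoc, add_assoc]
  have tri : ∀ (x : Fin f × Fin (l + 1) → ℤ) (t : ℕ), ∑ y, x y • B y ∈ L t →
      ∀ i : Fin (l + 1), t ≤ i → ∀ s, (p : ℤ) ∣ x (s, i) := by
    intro x t hx i
    induction i using WellFoundedGT.induction with
    | ind i ih =>
      intro hti
      apply hg2 (fun s => x (s, i))
      intro hun
      have h1 : ∑ y, x y • B y = ∑ i', ∑ s, x (s, i') • B (s, i') := by
        rw [Fintype.sum_prod_type_right]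
      have h2 : ∑ i' ∈ univ.erase i, ∑ s, x (s, i') • B (s, i') ∈ L i := by
        refine sum_mem fun i' hi' => sum_mem fun s _ => ?_
        rcases lt_or_gt_of_ne (ne_of_mem_erase hi') with h | h
        · rw [zsmul_eq_mul, hB]
          exact Ideal.mul_mem_left _ _ (Ideal.mul_mem_left _ _ (Lm (Nat.succ_le_of_lt h) (bL _)))
        · obtain ⟨c, hc⟩ := ih i' h (hti.trans (le_of_lt h)) s
          rw [hc, zsmul_eq_mul]; push_cast
          rw [mul_assoc]; exact pL _ _
      rw [← add_sum_erase _ _ (mem_univ i)] at h1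
      have h3 : ∑ s, x (s, i) • B (s, i) ∈ L i := by
        have := (L i).sub_mem (Lm hti hx) h2
        rwa [h1, add_sub_cancel_right] at this
      have h4 : ∑ s, x (s, i) • B (s, i) = (∑ s, x (s, i) • g s) * b i := by
        rw [sum_mul]; exact sum_congr rfl fun s _ => by rw [hB, smul_mul_assoc]
      obtain ⟨u, hu⟩ := hun
      apply (hab i (hle i)).2.2.1
      have := Ideal.mul_mem_left _ ((u⁻¹ : Rˣ) : R) h3
      rwa [h4, ← hu, ← mul_assoc, Units.inv_mul, one_mul] at this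
  have ind : ∀ x : Fin f × Fin (l + 1) → ℤ, ∑ y, x y • B y = 0 → ∀ y, (p : ℤ) ^ a y.2 ∣ x y := by
    intro x hx
    have : ∀ e y, (p : ℤ) ^ min e (a y.2) ∣ x y := by
      intro e
      induction e with
      | zero => intro y; simp
      | succ e ih =>
        intro y
        by_cases he : e < a y.2
        · choose c hc using ih
          have h1 : (p : R) ^ e * ∑ y, (if e < a y.2 then c y else 0) • B y = 0 := by
            rw [← hx, mul_sum]
            refine sum_congr rfl fun w _ => ?_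
            by_cases hw : e < a w.2
            · rw [if_pos hw, hc w, min_eq_left hw.le, mul_smul, zsmul_eq_mul _ ((p : ℤ) ^ e)]
              push_cast; rfl
            · rw [if_neg hw, hc w, min_eq_right (not_lt.1 hw), mul_comm ((p : ℤ) ^ _), mul_smul, hkill]
              simp
          have h2 := tri _ _ ((hab _ (hle y.2)).2.2.2.2 e _ he h1) y.2 le_rfl y.1
          simp only [if_pos he] at h2
          rw [hc y, min_eq_left he.le, min_eq_left (Nat.succ_le_of_lt he), pow_succ]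
          exact mul_dvd_mul_left _ h2
        · have := ih y
          rwa [min_eq_right (by omega)] at this ⊢
    intro y
    simpa using this (a y.2) y
  refine ⟨p, k, l, f, a, B, fun r s s' => β0 (r * g s') s, hp, hk, ?_, ?_, hkill, ?_, ind, ?_⟩
  · intro i j hij hj
    by_contra hc
    exact (hab j hj).2.2.1 (Lm hij ((hab i (by omega)).2.2.2.2 (a j) _ (by omega) (hab j hj).2.1))
  · intro i hi
    refine ⟨?_, (hab i hi).1⟩
    by_contra hc
    have h1 := (hab i hi).2.1
    rw [show a i = 0 by omega, pow_zero, one_mul] at h1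
    exact (hab i hi).2.2.1 (by rw [h1]; exact zero_mem _)
  · intro r
    obtain ⟨m, hm, z, hz⟩ := sp2 k r
    rw [hpk, zero_mul, add_zero] at hz
    rw [hz]
    exact (Submodule.mem_span_range_iff_exists_fun ℤ).1 hm
  · intro r z x hx y
    obtain ⟨x', hx'⟩ : ∃ x' : Fin f × Fin (l + 1) → ℤ,
      ∀ y, x' y = x y - if y.2 = z.2 then β0 (r * g z.1) y.1 else 0 := ⟨_, fun _ => rfl⟩
    have h1 : ∑ y, x' y • B y = (r * g z.1 - ∑ s, β0 (r * g z.1) s • g s) * b z.2 := by
      simp only [hx', sub_smul, sum_sub_distrib, hx, sub_mul, sum_mul]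
      rw [hB, mul_assoc, Fintype.sum_prod_type]
      congr 1
      refine sum_congr rfl fun s _ => ?_
      simp [hB, mul_assoc]
    rw [← hx']
    have h2 : (p : ℤ) ^ (a y.2 - a z.2) ∣ x' y := by
      have h3 : ∑ y, ((p : ℤ) ^ a z.2 * x' y) • B y = 0 := by
        simp only [mul_smul, ← smul_sum, h1]
        rw [zsmul_eq_mul, ← mul_assoc, Int.cast_comm, mul_assoc]
        push_cast
        rw [(hab _ (hle _)).2.1, mul_zero]
      have h4 := ind _ h3 y
      by_cases h5 : a y.2 ≤ a z.2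
      · rw [Nat.sub_eq_zero_of_le h5]; simp
      · obtain ⟨d, hd⟩ := Nat.exists_eq_add_of_le (not_le.1 h5).le
        rw [hd, pow_add] at h4
        rw [hd, Nat.add_sub_cancel_left]
        exact (mul_dvd_mul_iff_left (pow_ne_zero _ (by exact_mod_cast hp.ne_zero))).1 h4
    unfold cst
    split_ifs with h6
    · rcases le_total (a y.2 - a z.2) 1 with h7 | h7
      · rw [max_eq_right h7, pow_one]
        exact tri x' z.2 (by rw [h1]; exact (hab _ (hle _)).2.2.2.1 _ (hβ0 _)) y.2 h6 y.1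
      · rwa [max_eq_left h7]
    · rwa [max_eq_left (Nat.zero_le _)]

theorem ex_lam (R : Type) [Ring R] [Finite R] [IsLocalRing R] :
    ∃ (p k l f : ℕ) (a : ℕ → ℕ) (lam : R → Matrix (Fin f × Fin (l + 1)) (Fin f × Fin (l + 1)) ℤ)
      (β : R → Fin f → Fin f → ℤ),
      p.Prime ∧ 1 ≤ k ∧ (∀ i j, i ≤ j → j ≤ l → a i ≤ a j) ∧ (∀ i ≤ l, 1 ≤ a i ∧ a i ≤ k) ∧
      (∀ r y z, (p : ℤ) ^ cst a y.2 z.2 ∣ lam r y z - if y.2 = z.2 then β r y.1 z.1 else 0) ∧
      (∀ r r' y z, (p : ℤ) ^ a y.2 ∣ (lam (r * r') - lam r * lam r') y z) ∧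
      (∀ r r' y z, (p : ℤ) ^ a y.2 ∣ (lam (r + r') - (lam r + lam r')) y z) ∧
      (∀ y z, (p : ℤ) ^ a y.2 ∣ (lam 1 - 1) y z) ∧
      ∀ r, (∀ y z, (p : ℤ) ^ a y.2 ∣ lam r y z) → r = 0 := by
  obtain ⟨p, k, l, f, a, B, β, hp, hk, hm, ha, hkill, hsp, ind, hc⟩ := ex_basis R
  choose x hx using hsp
  refine ⟨p, k, l, f, a, fun r => Matrix.of fun y z => x (r * B z) y, β, hp, hk, hm, ha,
    fun r y z => hc r z _ (hx _) y, fun r r' y z => ?_, fun r r' y z => ?_, fun y z => ?_,
    fun r hr => ?_⟩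
  · refine ind (fun y => ((Matrix.of fun y z => x (r * r' * B z) y) - (Matrix.of fun y z => x (r * B z) y) *
      (Matrix.of fun y z => x (r' * B z) y)) y z) ?_ y
    simp only [Matrix.sub_apply, Matrix.mul_apply, Matrix.of_apply, sub_smul, sum_sub_distrib, hx,
      sum_smul]
    rw [sum_comm]
    have : ∀ w, ∑ y, (x (r * B w) y * x (r' * B z) w) • B y = r * (x (r' * B z) w • B w) := by
      intro w
      simp only [mul_comm (x (r * B w) _), mul_smul, ← smul_sum, hx, mul_smul_comm]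
    simp only [this, ← mul_sum, hx, mul_assoc, sub_self]
  · refine ind (fun y => ((Matrix.of fun y z => x ((r + r') * B z) y) - ((Matrix.of fun y z => x (r * B z) y) +
      (Matrix.of fun y z => x (r' * B z) y))) y z) ?_ y
    simp only [Matrix.sub_apply, Matrix.add_apply, Matrix.of_apply, sub_smul, add_smul,
      sum_sub_distrib, sum_add_distrib, hx, add_mul, sub_self]
  · refine ind (fun y => ((Matrix.of fun y z => x (1 * B z) y) - 1) y z) ?_ y
    simp only [Matrix.sub_apply, Matrix.of_apply, sub_smul, sum_sub_distrib, hx]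
    simp [Matrix.one_apply]
  · have h1 : ∀ z, r * B z = 0 := by
      intro z
      rw [← hx (r * B z)]
      refine sum_eq_zero fun y _ => ?_
      obtain ⟨c, hc⟩ := hr y z
      simp only [Matrix.of_apply] at hc
      rw [hc, mul_comm, mul_smul, hkill, smul_zero]
    rw [← mul_one r, ← hx 1, mul_sum]
    exact sum_eq_zero fun y _ => by rw [mul_smul_comm, h1, smul_zero]

end Pool.Agent.H.MP_4a16d5_al
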