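import Mathlib

set_option autoImplicit false
set_option linter.unusedSectionVars false

namespace Pool.Agent.H.MP_4a16d5_al

open Finset

theorem geo_le (p : ℕ) (hp : 2 ≤ p) (r : ℕ) : ∑ j ∈ range r, p ^ j + 1 ≤ p ^ r := by
  induction r with
  | zero => simp
  | succ r ih => 
    have : p ^ r * 2 ≤ p ^ r * p := Nat.mul_le_mul_left _ hp
    rw [sum_range_succ, pow_succ]; omega

theorem pw_r (p r : ℕ) (hp : 2 ≤ p) : ((p : ZMod (p ^ r - 1))) ^ r = 1 := by
  have h1 : 1 ≤ p ^ r := Nat.one_le_pow _ _ (by omega)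
  have h2 : ((p ^ r - 1 : ℕ) : ZMod (p ^ r - 1)) = 0 := ZMod.natCast_self _
  rw [Nat.cast_sub h1] at h2
  push_cast at h2
  exact sub_eq_zero.1 h2

theorem pw_add (p r : ℕ) [NeZero r] (hp : 2 ≤ p) (e j : ZMod r) :
    ((p : ZMod (p ^ r - 1))) ^ (e + j).val = p ^ e.val * p ^ j.val := by
  rw [ZMod.val_add, ← pow_eq_pow_mod _ (pw_r p r hp), pow_add]

theorem girth0 (p r : ℕ) [NeZero r] (hp : 2 ≤ p) (m : List (ZMod r)) (hm : m ≠ [])
    (h : (m.map fun e => ((p : ZMod (p ^ r - 1))) ^ e.val).sum = 0) : r ≤ m.length := by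
  have hr : r ≠ 0 := NeZero.ne r
  have hN : 0 < p ^ r - 1 := by
    have := Nat.one_lt_pow hr (show 1 < p by omega)
    omega
  have h1 : ∀ j : ZMod r, p ^ r - 1 ≤ (m.map fun e => p ^ (e + j).val).sum := by
    intro j
    apply Nat.le_of_dvd
    · obtain ⟨e, m', rfl⟩ := List.exists_cons_of_ne_nil hm
      simp only [List.map_cons, List.sum_cons]
      have : 0 < p ^ (e + j).val := Nat.pow_pos (by omega)
      omega
    · rw [← ZMod.natCast_eq_zero_iff, Nat.cast_list_sum, List.map_map]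
      have : (m.map ((Nat.cast : ℕ → ZMod (p ^ r - 1)) ∘ fun e => p ^ (e + j).val)) =
          m.map fun e => ((p : ZMod (p ^ r - 1))) ^ e.val * p ^ j.val :=
        List.map_congr_left fun e _ => by simp [pw_add p r hp]
      rw [this, List.sum_map_mul_right, h, zero_mul]
  have h2 : ∑ j : ZMod r, p ^ j.val ≤ p ^ r - 1 := by
    have h3 : ∑ j : ZMod r, p ^ j.val = ∑ j ∈ range r, p ^ j := by
      refine sum_bij (fun j _ => j.val) (fun j _ => mem_range.2 (ZMod.val_lt j))
        (fun a _ b _ h => ZMod.val_injective r h)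
        (fun b hb => ⟨(b : ZMod r), mem_univ _, ZMod.val_cast_of_lt (mem_range.1 hb)⟩) fun _ _ => rfl
    have := geo_le p hp r
    omega
  have h4 : ∀ m : List (ZMod r), ∑ j : ZMod r, (m.map fun e => p ^ (e + j).val).sum ≤
      m.length * (p ^ r - 1) := by
    intro m
    induction m with
    | nil => simp
    | cons e m ih =>
      simp only [List.map_cons, List.sum_cons, sum_add_distrib, List.length_cons]
      have : ∑ j : ZMod r, p ^ (e + j).val = ∑ j : ZMod r, p ^ j.val :=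
        Equiv.sum_comp (Equiv.addLeft e) fun j : ZMod r => p ^ j.val
      rw [this, add_mul, one_mul]; omega
  have h5 := (sum_le_sum fun j (_ : j ∈ (univ : Finset (ZMod r))) => h1 j).trans (h4 m)
  rw [sum_const, card_univ, ZMod.card, smul_eq_mul] at h5
  exact Nat.le_of_mul_le_mul_right h5 hN

theorem frob_sum {A ι : Type} [CommRing A] [DecidableEq ι] {p : ℕ} (hp : p.Prime) (s : Finset ι)
    (f : ι → A) : (p : A) ∣ (∑ i ∈ s, f i) ^ p - ∑ i ∈ s, f i ^ p := by
  induction s using Finset.induction_on with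
  | empty => simp [hp.ne_zero]
  | insert a s ha ih =>
    rw [sum_insert ha, sum_insert ha]
    obtain ⟨r, hr⟩ := exists_add_pow_prime_eq hp (f a) (∑ i ∈ s, f i)
    obtain ⟨c, hc⟩ := ih
    exact ⟨c + f a * (∑ i ∈ s, f i) * r, by rw [hr]; linear_combination hc⟩

theorem ex_idem (p k L : ℕ) (hp : p.Prime) (hk : 1 ≤ k) :
    ∃ (N : ℕ) (_ : NeZero N) (S : ZMod N → Prop) (e : ZMod N → ZMod (p ^ k)),
      (∀ x, ∑ y, e y * e (-y + x) = e x) ∧ e ≠ 0 ∧ (∀ x, e x ≠ 0 → S x) ∧
      ∀ x, S x → ∀ l : List (ZMod N), l.length ≤ L → (∀ y ∈ l, S y ∨ y = 0) → x + l.sum ≠ 0 := by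
  classical
  have hp2 := hp.two_le
  obtain ⟨D, hD⟩ : ∃ D, D = (p - 1) * p ^ k := ⟨_, rfl⟩
  have hD1 : 1 ≤ D := by
    rw [hD]; exact Nat.mul_pos (by omega) (Nat.pow_pos (by omega))
  obtain ⟨r, hr⟩ : ∃ r, r = p * (D * (L + 1)) + 1 := ⟨_, rfl⟩
  have : NeZero r := ⟨by omega⟩
  have hr2 : 2 ≤ r := by
    have : 1 ≤ p * (D * (L + 1)) := Nat.mul_pos (by omega) (Nat.mul_pos hD1 (by omega))
    omega
  have hN : NeZero (p ^ r - 1) := ⟨by
    have := Nat.one_lt_pow (NeZero.ne r) (show 1 < p by omega)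
    omega⟩
  have : Fact (1 < p ^ k) := ⟨Nat.one_lt_pow (by omega) (by omega)⟩
  let b : ZMod r → ZMod (p ^ r - 1) := fun e => (p : ZMod (p ^ r - 1)) ^ e.val
  let P : ℕ → ZMod (p ^ r - 1) → Prop := fun n x => ∃ m : List (ZMod r), m.length = n ∧
    (m.map b).sum = x
  let T : AddMonoidAlgebra (ZMod (p ^ k)) (ZMod (p ^ r - 1)) :=
    ∑ e, AddMonoidAlgebra.single (b e) 1
  have hT : (p : AddMonoidAlgebra (ZMod (p ^ k)) (ZMod (p ^ r - 1))) ∣ T ^ p - T := by
    have h1 := frob_sum hp univ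
      fun e => (AddMonoidAlgebra.single (b e) 1 : AddMonoidAlgebra (ZMod (p ^ k)) _)
    have h2 : ∑ e, (AddMonoidAlgebra.single (b e) 1 : AddMonoidAlgebra (ZMod (p ^ k)) _) ^ p = T := by
      refine Eq.trans ?_ (Equiv.sum_comp (Equiv.addRight (1 : ZMod r)) fun e =>
        (AddMonoidAlgebra.single (b e) 1 : AddMonoidAlgebra (ZMod (p ^ k)) _))
      refine sum_congr rfl fun e _ => ?_
      have : Fact (1 < r) := ⟨by omega⟩
      rw [AddMonoidAlgebra.single_pow, one_pow]
      simp only [b, Equiv.coe_addRight, pw_add p r hp2, ZMod.val_one, pow_one, nsmul_eq_mul,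
        mul_comm]
    rwa [h2] at h1
  have hT2 : (p : AddMonoidAlgebra (ZMod (p ^ k)) (ZMod (p ^ r - 1))) ∣
      (T ^ (p - 1)) ^ 2 - T ^ (p - 1) := by
    obtain ⟨q, rfl⟩ := Nat.exists_eq_add_of_le' hp2
    obtain ⟨c, hc⟩ := hT
    refine ⟨c * T ^ q, ?_⟩
    rw [← mul_assoc, ← hc, show q + 2 - 1 = q + 1 by omega]; ring
  have hid : T ^ D * T ^ D = T ^ D := by
    obtain ⟨c, hc⟩ := dvd_sub_pow_of_dvd_sub hT2 k
    have h0 : ((p : AddMonoidAlgebra (ZMod (p ^ k)) (ZMod (p ^ r - 1)))) ^ (k + 1) = 0 := by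
      have : ((p ^ k : ℕ) : AddMonoidAlgebra (ZMod (p ^ k)) (ZMod (p ^ r - 1))) = 0 := by
        rw [AddMonoidAlgebra.natCast_def, ZMod.natCast_self, AddMonoidAlgebra.single_zero]
      push_cast at this
      rw [pow_succ, this, zero_mul]
    rw [h0, zero_mul, sub_eq_zero] at hc
    rw [hD, pow_mul, ← mul_pow, ← sq, hc]
  have hsupp : ∀ n x, (T ^ n).coeff x ≠ 0 → P n x := by
    intro n
    induction n with
    | zero =>
      intro x hx
      refine ⟨[], rfl, ?_⟩
      by_contra hc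
      apply hx
      replace hc : (0 : ZMod (p ^ r - 1)) ≠ x := hc
      rw [pow_zero, AddMonoidAlgebra.one_def, AddMonoidAlgebra.coeff_single,
        Finsupp.single_eq_of_ne' hc]
    | succ n ih =>
      intro x hx
      rw [pow_succ', sum_mul, AddMonoidAlgebra.coeff_sum, Finsupp.finsetSum_apply] at hx
      obtain ⟨e, -, he⟩ := exists_ne_zero_of_sum_ne_zero hx
      rw [AddMonoidAlgebra.coeff_single_mul_apply, one_mul] at he
      obtain ⟨m, hm, hs⟩ := ih _ he
      exact ⟨e :: m, by simp [hm], by rw [List.map_cons, List.sum_cons, hs]; abel⟩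
  refine ⟨_, hN, P D, fun x => (T ^ D).coeff x, fun x => ?_, fun h => ?_, hsupp D, ?_⟩
  · have h1 := AddMonoidAlgebra.coeff_mul_apply_left (T ^ D) (T ^ D) x
    rw [hid, Finsupp.sum_fintype _ _ (by simp)] at h1
    exact h1.symm
  · have h1 : T ^ D = 0 := AddMonoidAlgebra.coeff_injective (Finsupp.ext fun x => congrFun h x)
    have h2 := congrArg (AddMonoidAlgebra.lift (ZMod (p ^ k)) (ZMod (p ^ k)) (ZMod (p ^ r - 1)) 1) h1
    simp only [T, map_pow, map_sum, AddMonoidAlgebra.lift_single, map_zero] at h2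
    simp only [MonoidHom.one_apply, smul_eq_mul, mul_one, sum_const, card_univ, ZMod.card,
      nsmul_eq_mul] at h2
    have h3 : IsUnit (r : ZMod (p ^ k)) := by
      rw [ZMod.isUnit_iff_coprime]
      apply Nat.Coprime.pow_right
      rw [hr]; simp
    exact (h3.pow D).ne_zero h2
  · intro x hx l hl hS h0
    have h1 : ∀ l : List (ZMod (p ^ r - 1)), (∀ y ∈ l, P D y ∨ y = 0) →
        ∃ n ≤ D * l.length, P n l.sum := by
      intro l
      induction l with
      | nil => intro _; exact ⟨0, by simp, [], rfl, rfl⟩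
      | cons y l ih =>
        intro h
        obtain ⟨n, hn, m, hm, hs⟩ := ih fun z hz => h z (List.mem_cons_of_mem _ hz)
        rcases h y List.mem_cons_self with ⟨m', hm', hs'⟩ | h2
        · exact ⟨D + n, by rw [List.length_cons]; nlinarith, m' ++ m, by simp [hm, hm'],
            by simp [hs, hs']⟩
        · exact ⟨n, by rw [List.length_cons]; nlinarith, m, hm, by simp [hs, h2]⟩
    obtain ⟨n, hn, m, hm, hs⟩ := h1 l hS
    obtain ⟨m', hm', hs'⟩ := hx
    have h2 := girth0 p r hp2 (m' ++ m) (by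
      intro h; have := congrArg List.length h
      rw [List.length_append, List.length_nil] at this; omega)
      (by rw [List.map_append, List.sum_append]; rw [← h0, ← hs, ← hs'])
    rw [List.length_append, hm, hm'] at h2
    have : D * l.length ≤ D * L := Nat.mul_le_mul_left _ hl
    nlinarith

theorem ex_split {W G : Type} [CommRing W] [IsLocalRing W] [Fintype G] [DecidableEq G]
    (e : Matrix G G W) (he : e * e = e) :
    ∃ (r : ℕ) (U : Matrix G (Fin r) W) (V : Matrix (Fin r) G W), U * V = e ∧ V * U = 1 := by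
  let f := Matrix.toLin' e
  have hf : ∀ x, f (f x) = f x := fun x => by
    simp only [f, Matrix.toLin'_apply, Matrix.mulVec_mulVec, he]
  have h1 : f.rangeRestrict ∘ₗ (LinearMap.range f).subtype = LinearMap.id := by
    ext ⟨_, x, rfl⟩ : 1
    exact Subtype.ext (hf x)
  have : Module.Projective W (LinearMap.range f) := Module.Projective.of_split _ _ h1
  have : Module.Free W (LinearMap.range f) := Module.free_of_flat_of_isLocalRing
  let b := Module.finBasis W (LinearMap.range f)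
  refine ⟨_, LinearMap.toMatrix b (Pi.basisFun W G) (LinearMap.range f).subtype,
    LinearMap.toMatrix (Pi.basisFun W G) b f.rangeRestrict, ?_, ?_⟩
  · rw [← LinearMap.toMatrix_comp, show (LinearMap.range f).subtype ∘ₗ f.rangeRestrict = f from rfl,
      LinearMap.toMatrix_eq_toMatrix', LinearMap.toMatrix'_toLin']
  · rw [← LinearMap.toMatrix_comp, h1, LinearMap.toMatrix_id]

theorem zmod_local (p k : ℕ) (hp : p.Prime) (hk : 1 ≤ k) : IsLocalRing (ZMod (p ^ k)) := by
  have : Fact (1 < p ^ k) := ⟨Nat.one_lt_pow (by omega) hp.one_lt⟩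
  have : NeZero (p ^ k) := ⟨pow_ne_zero _ hp.ne_zero⟩
  apply IsLocalRing.of_isUnit_or_isUnit_one_sub_self
  intro a
  obtain ⟨n, rfl⟩ := ZMod.natCast_zmod_surjective a
  by_cases h : p ∣ n
  · right
    obtain ⟨c, rfl⟩ := h
    apply IsNilpotent.isUnit_one_sub
    refine ⟨k, ?_⟩
    have : ((p ^ k : ℕ) : ZMod (p ^ k)) = 0 := ZMod.natCast_self _
    push_cast at this ⊢
    rw [mul_pow, this, zero_mul]
  · left
    rw [ZMod.isUnit_iff_coprime]
    exact Nat.Coprime.pow_right _ ((Nat.Prime.coprime_iff_not_dvd hp).2 h).symm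

end Pool.Agent.H.MP_4a16d5_al
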