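import Pool.Agent.H.MP_4a16d5_al.B

set_option autoImplicit false
set_option linter.unusedSectionVars false

namespace Pool.Agent.H.MP_4a16d5_al

open Finset

/-- a diagonalised idempotent with support of large girth -/
structure Gad (W : Type) [CommRing W] (L : ℕ) where
  G : Type
  R : Type
  Γ : Type
  [fG : Fintype G]
  [dG : DecidableEq G]
  [fR : Fintype R]
  [dR : DecidableEq R]
  [aΓ : AddCommGroup Γ]
  γ : G → Γ
  S : Γ → Prop
  cl : R → Bool
  g : Matrix G R W
  h : Matrix R G W
  gh : g * h = 1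
  hg : h * g = 1
  pos : ∀ u u', (∑ ρ with cl ρ = true, g u ρ * h ρ u') ≠ 0 → S (γ u - γ u')
  girth : ∀ x, S x → ∀ l : List Γ, l.length ≤ L → (∀ y ∈ l, S y ∨ y = 0) → x + l.sum ≠ 0
  us : G
  rs : R
  cls : cl rs = false
  g_s : ∀ u, g u rs ≠ 0 → u = us
  h_s : ∀ u, h rs u ≠ 0 → u = us

attribute [instance] Gad.fG Gad.dG Gad.fR Gad.dR Gad.aΓ

namespace Gad
variable {W : Type} [CommRing W] {L : ℕ} (X : Gad W L)

theorem split (u u' : X.G) : (∑ ρ with X.cl ρ = false, X.g u ρ * X.h ρ u') =
    (if u = u' then 1 else 0) - ∑ ρ with X.cl ρ = true, X.g u ρ * X.h ρ u' := by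
  have h1 := congrFun (congrFun X.gh u) u'
  rw [Matrix.mul_apply, Matrix.one_apply,
    ← sum_filter_add_sum_filter_not univ fun ρ => X.cl ρ = true] at h1
  rw [← h1]
  simp

theorem not_zero : ¬ X.S 0 := fun h => X.girth 0 h [] (by simp) (by simp) (by simp)

theorem diag (u : X.G) : (∑ ρ with X.cl ρ = false, X.g u ρ * X.h ρ u) = 1 := by
  rw [split, if_pos rfl]
  have : ∑ ρ with X.cl ρ = true, X.g u ρ * X.h ρ u = 0 := by
    by_contra hc
    have := X.pos u u hc
    rw [sub_self] at this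
    exact X.not_zero this
  rw [this, sub_zero]

theorem offd {u u' : X.G} (h : (∑ ρ with X.cl ρ = false, X.g u ρ * X.h ρ u') ≠ 0) :
    u = u' ∨ X.S (X.γ u - X.γ u') := by
  by_cases h1 : u = u'
  · exact Or.inl h1
  · right
    rw [split, if_neg h1, zero_sub, neg_ne_zero] at h
    exact X.pos u u' h

/-- tensor power -/
def pw (d : ℕ) : Gad W L where
  G := Fin d → X.G
  R := Fin d → X.R
  Γ := Fin d → X.Γ
  γ u s := X.γ (u s)
  S x := (∀ s, X.S (x s) ∨ x s = 0) ∧ ∃ s, X.S (x s)
  cl r := decide (∃ s, X.cl (r s) = true)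
  g := Matrix.of fun u r => ∏ s, X.g (u s) (r s)
  h := Matrix.of fun r u => ∏ s, X.h (r s) (u s)
  gh := by
    ext u u'
    simp only [Matrix.mul_apply, Matrix.of_apply, ← prod_mul_distrib]
    rw [← Fintype.prod_sum fun s ρ => X.g (u s) ρ * X.h ρ (u' s)]
    simp only [← Matrix.mul_apply, X.gh, Matrix.one_apply]
    rw [prod_boole]
    simp [funext_iff]
  hg := by
    ext u u'
    simp only [Matrix.mul_apply, Matrix.of_apply, ← prod_mul_distrib]
    rw [← Fintype.prod_sum fun s ρ => X.h (u s) ρ * X.g ρ (u' s)]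
    simp only [← Matrix.mul_apply, X.hg, Matrix.one_apply]
    rw [prod_boole]
    simp [funext_iff]
  pos := by
    intro u u' hne
    simp only [Matrix.of_apply, ← prod_mul_distrib] at hne
    have h1 : ∑ r : Fin d → X.R, ∏ s, X.g (u s) (r s) * X.h (r s) (u' s) =
        if u = u' then 1 else 0 := by
      rw [← Fintype.prod_sum fun s ρ => X.g (u s) ρ * X.h ρ (u' s)]
      simp only [← Matrix.mul_apply, X.gh, Matrix.one_apply]
      rw [prod_boole]
      simp [funext_iff]
    have h2 : ∑ r : Fin d → X.R with ¬ (decide (∃ s, X.cl (r s) = true) = true),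
        ∏ s, X.g (u s) (r s) * X.h (r s) (u' s) =
        ∏ s, ∑ ρ with X.cl ρ = false, X.g (u s) ρ * X.h ρ (u' s) := by
      rw [prod_univ_sum]
      refine sum_congr ?_ fun _ _ => rfl
      ext r; simp
    rw [← sum_filter_add_sum_filter_not univ fun r : Fin d → X.R =>
      decide (∃ s, X.cl (r s) = true) = true, h2, ← eq_sub_iff_add_eq] at h1
    rw [h1] at hne
    by_cases hu : u = u'
    · subst hu
      simp [X.diag] at hne
    · rw [if_neg hu, zero_sub, neg_ne_zero] at hne
      have h3 : ∀ s, u s = u' s ∨ X.S (X.γ (u s) - X.γ (u' s)) := fun s =>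
        X.offd fun h0 => hne (prod_eq_zero (mem_univ s) h0)
      refine ⟨fun s => ?_, ?_⟩
      · rcases h3 s with h | h
        · right; simp [h]
        · left; exact h
      · obtain ⟨s, hs⟩ := Function.ne_iff.1 hu
        exact ⟨s, (h3 s).resolve_left hs⟩
  girth := by
    rintro x ⟨-, s, hs⟩ l hl hS h0
    refine X.girth (x s) hs (l.map fun y => y s) (by simpa using hl) ?_ ?_
    · intro y hy
      obtain ⟨z, hz, rfl⟩ := List.mem_map.1 hy
      rcases hS z hz with h | h
      · exact h.1 s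
      · right; simp [h]
    · have := congrFun h0 s
      rwa [Pi.add_apply, Pi.list_sum_apply] at this
  us := fun _ => X.us
  rs := fun _ => X.rs
  cls := by simp [X.cls]
  g_s := fun u h => funext fun s => X.g_s _ fun h0 => h (prod_eq_zero (mem_univ s) h0)
  h_s := fun u h => funext fun s => X.h_s _ fun h0 => h (prod_eq_zero (mem_univ s) h0)

/-- number of class one indices -/
def r1 : ℕ := (univ.filter fun ρ => X.cl ρ = true).card
/-- number of class zero indices -/
def r0 : ℕ := (univ.filter fun ρ => X.cl ρ = false).card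

theorem r_add : X.r1 + X.r0 = Fintype.card X.R := by
  unfold r1 r0
  rw [← card_univ, ← card_filter_add_card_filter_not (s := univ) fun ρ => X.cl ρ = true]
  simp

theorem r0_pos : 0 < X.r0 := card_pos.2 ⟨X.rs, by simp [X.cls]⟩

theorem pw_r0 (d : ℕ) : (X.pw d).r0 = X.r0 ^ d := by
  have : (univ.filter fun ρ : Fin d → X.R => decide (∃ s, X.cl (ρ s) = true) = false) =
      Fintype.piFinset fun _ => univ.filter fun ρ => X.cl ρ = false := by
    ext r; simp
  have h2 := congrArg card this
  rw [Fintype.card_piFinset, prod_const, card_univ, Fintype.card_fin] at h2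
  exact h2

theorem pw_big (h : 1 ≤ X.r1) (K : ℕ) : ∃ d, K * (X.pw d).r0 ≤ (X.pw d).r1 := by
  have h1 : ∀ d, (X.r0 + d) * X.r0 ^ d ≤ X.r0 * (X.r0 + 1) ^ d := by
    intro d
    induction d with
    | zero => simp
    | succ d ih =>
      rw [pow_succ, pow_succ]
      calc (X.r0 + (d + 1)) * (X.r0 ^ d * X.r0) ≤ (X.r0 + d) * X.r0 ^ d * (X.r0 + 1) := by
            nlinarith [Nat.zero_le (X.r0 ^ d * d)]
        _ ≤ X.r0 * (X.r0 + 1) ^ d * (X.r0 + 1) := Nat.mul_le_mul_right _ ih
        _ = _ := by ring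
  refine ⟨K * X.r0, ?_⟩
  have h2 := (X.pw (K * X.r0)).r_add
  have h3 : Fintype.card (X.pw (K * X.r0)).R = (X.r1 + X.r0) ^ (K * X.r0) := by
    rw [X.r_add]; exact (Fintype.card_fun).trans (by rw [Fintype.card_fin])
  have h4 : (X.r0 + 1) ^ (K * X.r0) ≤ (X.r1 + X.r0) ^ (K * X.r0) :=
    Nat.pow_le_pow_left (by omega) _
  have h5 := h1 (K * X.r0)
  have h6 : (1 + K) * X.r0 ^ (K * X.r0) ≤ (X.r0 + 1) ^ (K * X.r0) :=
    Nat.le_of_mul_le_mul_left (by nlinarith) X.r0_pos
  rw [pw_r0] at h2 ⊢
  nlinarith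

end Gad

theorem ex_gad (p k L K : ℕ) (hp : p.Prime) (hk : 1 ≤ k) :
    ∃ X : Gad (ZMod (p ^ k)) L, K * X.r0 ≤ X.r1 := by
  obtain ⟨N, hN, S, e, he, hne, hS, hg⟩ := ex_idem p k L hp hk
  have := zmod_local p k hp hk
  let E : Matrix (ZMod N) (ZMod N) (ZMod (p ^ k)) := Matrix.of fun u u' => e (u - u')
  have hE : E * E = E := by
    ext u u'
    simp only [E, Matrix.mul_apply, Matrix.of_apply]
    rw [← he (u - u'), ← Equiv.sum_comp (Equiv.subLeft u)]
    refine sum_congr rfl fun y _ => ?_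
    simp only [Equiv.subLeft_apply, sub_sub_cancel]
    congr 2; abel
  obtain ⟨r1, U1, V1, h1, h1'⟩ := ex_split E hE
  obtain ⟨r0, U0, V0, h0, h0'⟩ := ex_split (1 - E) (by
    rw [Matrix.sub_mul, Matrix.mul_sub, Matrix.mul_sub, hE]; simp)
  have c1 : V1 * U0 = 0 := by
    have : V1 * U0 = V1 * (U1 * V1) * (U0 * V0) * U0 := by
      rw [← Matrix.mul_assoc V1, h1', Matrix.one_mul, Matrix.mul_assoc, Matrix.mul_assoc, h0',
        Matrix.mul_one]
    rw [this, h1, h0, Matrix.mul_assoc V1, Matrix.mul_sub, hE]; simp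
  have c0 : V0 * U1 = 0 := by
    have : V0 * U1 = V0 * (U0 * V0) * (U1 * V1) * U1 := by
      rw [← Matrix.mul_assoc V0, h0', Matrix.one_mul, Matrix.mul_assoc, Matrix.mul_assoc, h1',
        Matrix.mul_one]
    rw [this, h1, h0, Matrix.mul_assoc V0, Matrix.sub_mul, hE]; simp
  let X : Gad (ZMod (p ^ k)) L :=
    { G := ZMod N ⊕ Unit
      R := (Fin r1 ⊕ Fin r0) ⊕ Unit
      Γ := ZMod N
      γ := Sum.elim id fun _ => 0
      S := S
      cl := Sum.elim (Sum.elim (fun _ => true) fun _ => false) fun _ => false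
      g := Matrix.fromBlocks (Matrix.fromCols U1 U0) 0 0 1
      h := Matrix.fromBlocks (Matrix.fromRows V1 V0) 0 0 1
      gh := by
        rw [Matrix.fromBlocks_multiply, Matrix.fromCols_mul_fromRows, h1, h0]; simp
      hg := by
        rw [Matrix.fromBlocks_multiply, Matrix.fromRows_mul_fromCols, h1', h0', c1, c0]; simp
      pos := by
        intro u u' h
        rw [sum_filter, Fintype.sum_sum_type, Fintype.sum_sum_type] at h
        rcases u with u | u <;> rcases u' with u' | u'
        · apply hS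
          have := congrFun (congrFun h1 u) u'
          simp only [E, Matrix.mul_apply, Matrix.of_apply] at this
          simpa [this] using h
        all_goals simp at h
      girth := hg
      us := Sum.inr ()
      rs := Sum.inr ()
      cls := rfl
      g_s := by rintro (u | u) h <;> simp at h ⊢
      h_s := by rintro (u | u) h <;> simp at h ⊢ }
  have hr : 1 ≤ X.r1 := by
    have : r1 ≠ 0 := by
      rintro rfl
      apply hne
      funext x
      have := congrFun (congrFun h1 x) 0
      simpa [E, Matrix.mul_apply] using this.symm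
    exact card_pos.2 ⟨Sum.inl (Sum.inl ⟨0, by omega⟩), by simp [X]⟩
  obtain ⟨d, hd⟩ := X.pw_big hr K
  exact ⟨_, hd⟩

end Pool.Agent.H.MP_4a16d5_al
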