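import Mathlib

set_option autoImplicit false
set_option linter.unusedSectionVars false

namespace Pool.Agent.H.MP_4a16d5_al

open Finset

theorem clear_den {ι : Type} [DecidableEq ι] (s : Finset ι) (x : ι → ℚ) (hx : ∀ i ∈ s, 0 ≤ x i) :
    ∃ N : ℕ, 0 < N ∧ ∃ n : ι → ℕ, ∀ i ∈ s, (n i : ℚ) = N * x i := by
  refine ⟨∏ i ∈ s, (x i).den, prod_pos fun i _ => (x i).den_pos,
    fun i => (∏ j ∈ s.erase i, (x j).den) * (x i).num.toNat, fun i hi => ?_⟩
  rw [← mul_prod_erase s _ hi]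
  have h1 : (((x i).num.toNat : ℕ) : ℚ) = (x i).num := by
    have := Int.toNat_of_nonneg (Rat.num_nonneg.2 (hx i hi))
    exact_mod_cast congrArg (Int.cast : ℤ → ℚ) this
  push_cast
  rw [h1, ← Rat.den_mul_eq_num]; ring

theorem ex_num (l r0 r1 : ℕ) (h0 : 0 < r0) (hK : 2 * (l + 1) ^ 2 * r0 ≤ r1) :
    ∃ (N : ℕ) (n : ℕ → ℕ → ℕ), (∀ t q, t < q → n t q = 0) ∧
      (∀ q ≤ l, ∑ t ∈ range (l + 1), n t q = N) ∧
      (∀ c < l, ∀ q ≤ c, n c q * r1 = n (c + 1) (c + 1) * r0 + n (c + 1) q * r1) ∧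
      ∀ q ≤ l, 0 < n q q := by
  have hr1 : (0 : ℚ) < r1 := by
    have : 0 < 2 * (l + 1) ^ 2 * r0 := by positivity
    exact_mod_cast lt_of_lt_of_le this hK
  obtain ⟨ρ, hρ⟩ : ∃ ρ : ℚ, ρ = r0 / r1 := ⟨_, rfl⟩
  have hρ0 : 0 ≤ ρ := by rw [hρ]; positivity
  have hρ1 : 2 * (l + 1) ^ 2 * ρ ≤ 1 := by
    rw [hρ, ← mul_div_assoc, div_le_one hr1]; exact_mod_cast hK
  obtain ⟨Z, S, hZ0, hS0, hZ, hS⟩ : ∃ Z S : ℕ → ℚ, Z 0 = 0 ∧ S 0 = 0 ∧
      (∀ s : ℕ, Z (s + 1) = Z s + ρ * ((1 - S s) / (s + 1) + Z s)) ∧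
      ∀ s, S (s + 1) = S s + Z (s + 1) := by
    let F : ℕ → ℚ × ℚ := fun n => Nat.rec (0, 0) (fun s y =>
      (y.1 + ρ * ((1 - y.2) / (s + 1) + y.1), y.2 + (y.1 + ρ * ((1 - y.2) / (s + 1) + y.1)))) n
    exact ⟨fun s => (F s).1, fun s => (F s).2, rfl, rfl, fun _ => rfl, fun _ => rfl⟩
  have hb : ∀ s : ℕ, s ≤ l → 0 ≤ Z s ∧ Z s ≤ 2 * ρ * s ∧ 0 ≤ S s ∧ S s ≤ 2 * ρ * s ^ 2 := by
    intro s
    induction s with
    | zero => intro _; simp [hZ0, hS0]
    | succ s ih =>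
      intro hs
      obtain ⟨a1, a2, a3, a4⟩ := ih (by omega)
      have hs' : (s : ℚ) + 1 ≤ l := by exact_mod_cast hs
      have hs0 : (0 : ℚ) ≤ s := by positivity
      have b0 : 2 * ρ * (s + 1) ^ 2 ≤ 1 := by
        have : ((s : ℚ) + 1) ^ 2 ≤ (l + 1) ^ 2 := by nlinarith
        nlinarith
      have b1 : S s ≤ 1 := by nlinarith
      have b2 : Z s ≤ 1 := by nlinarith
      have b3 : 0 ≤ (1 - S s) / (s + 1) := div_nonneg (by linarith) (by linarith)
      have b4 : (1 - S s) / (s + 1) ≤ 1 := by rw [div_le_one (by linarith)]; linarith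
      have c1 : 0 ≤ Z (s + 1) := by rw [hZ]; positivity
      have c2 : Z (s + 1) ≤ 2 * ρ * (s + 1) := by rw [hZ]; nlinarith
      push_cast
      refine ⟨c1, c2, by rw [hS]; positivity, by rw [hS]; nlinarith⟩
  have hw : ∀ s : ℕ, s ≤ l → 0 < (1 - S s) / (s + 1) := by
    intro s hs
    have hs' : (s : ℚ) ≤ l := by exact_mod_cast hs
    have hs0 : (0 : ℚ) ≤ s := by positivity
    apply div_pos _ (by positivity)
    have h1 := (hb s hs).2.2.2
    have h2 : 0 < ρ := by rw [hρ]; positivity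
    have : (s : ℚ) ^ 2 < (l + 1) ^ 2 := by nlinarith
    nlinarith
  have hSS : ∀ s, S s = ∑ t ∈ range (s + 1), Z t := by
    intro s
    induction s with
    | zero => simp [hZ0, hS0]
    | succ s ih => rw [hS, ih, sum_range_succ _ (s + 1)]
  obtain ⟨N, hN, n, hn⟩ := clear_den (range (l + 1) ×ˢ range (l + 1))
    (fun y => (1 - S (l - y.2)) / ((l - y.2 : ℕ) + 1) + Z (l - y.1))
    (fun y _ => add_nonneg (hw _ (by omega)).le (hb _ (by omega)).1)
  have hn' : ∀ t q, t ≤ l → q ≤ l →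
      (n (t, q) : ℚ) = N * ((1 - S (l - q)) / ((l - q : ℕ) + 1) + Z (l - t)) := fun t q ht hq =>
    hn (t, q) (by simp; omega)
  refine ⟨N, fun t q => if q ≤ t then n (t, q) else 0, fun t q h => if_neg (by omega),
    fun q hq => ?_, fun c hc q hq => ?_, fun q hq => ?_⟩
  · have h1 : ∑ t ∈ range (l + 1), (if q ≤ t then n (t, q) else 0) =
        ∑ s ∈ range (l - q + 1), n (l - s, q) := by
      rw [← sum_filter]
      refine sum_bij (fun t _ => l - t) (fun t ht => ?_) (fun a ha b hb h => ?_) (fun s hs => ?_)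
        fun t ht => ?_
      · simp at ht ⊢; omega
      · simp at ha hb h; omega
      · exact ⟨l - s, by simp at hs ⊢; omega, by simp at hs ⊢; omega⟩
      · simp at ht; rw [show l - (l - t) = t by omega]
    rw [h1]
    have h2 : ((∑ s ∈ range (l - q + 1), n (l - s, q) : ℕ) : ℚ) = N := by
      push_cast
      rw [sum_congr rfl fun s hs => show (n (l - s, q) : ℚ) =
        N * ((1 - S (l - q)) / ((l - q : ℕ) + 1) + Z s) by
          rw [hn' _ _ (by omega) hq, show l - (l - s) = s by simp at hs; omega]]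
      rw [← mul_sum, sum_add_distrib, ← hSS, sum_const, card_range, nsmul_eq_mul]
      push_cast
      field_simp
      ring
    exact_mod_cast h2
  · simp only [if_pos hq, le_refl, if_true, if_pos (show q ≤ c + 1 by omega)]
    have h2 : (n (c, q) : ℚ) * r1 = n (c + 1, c + 1) * r0 + n (c + 1, q) * r1 := by
      rw [hn' _ _ (by omega) (by omega), hn' _ _ (by omega) (by omega),
        hn' _ _ (by omega) (by omega), show l - c = (l - (c + 1)) + 1 by omega, hZ, hρ]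
      field_simp
      ring
    exact_mod_cast h2
  · simp only [le_refl, if_true]
    have : (0 : ℚ) < n (q, q) := by
      rw [hn' _ _ hq hq]
      exact mul_pos (by exact_mod_cast hN)
        (add_pos_of_pos_of_nonneg (hw _ (by omega)) (hb _ (by omega)).1)
    exact_mod_cast this

theorem ex_ty (l N : ℕ) (n : ℕ → ℕ) (h : ∑ t ∈ range (l + 1), n t = N) :
    ∃ ty : Fin N → ℕ, (∀ x, ty x ≤ l) ∧ ∀ t ≤ l, (univ.filter fun x => ty x = t).card = n t := by
  have h1 : Fintype.card (Fin N) = Fintype.card (Σ t : Fin (l + 1), Fin (n t)) := by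
    simp [← h, sum_range]
  let e := Fintype.equivOfCardEq h1
  refine ⟨fun x => (e x).1, fun x => Nat.lt_succ_iff.1 (e x).1.2, fun t ht => ?_⟩
  have h2 : (univ.filter fun y : (Σ t : Fin (l + 1), Fin (n t)) => (y.1 : ℕ) = t).card = n t := by
    rw [card_filter, Fintype.sum_sigma]
    rw [sum_eq_single ⟨t, by omega⟩]
    · simp
    · intro b _ hb; exact sum_eq_zero fun _ _ => if_neg fun h => hb (Fin.ext h)
    · simp
  rw [← h2]
  exact card_equiv e (by simp)

end Pool.Agent.H.MP_4a16d5_al
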