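import Pool.Agent.H.MP_4a16d5_al.C

set_option autoImplicit false
set_option linter.unusedSectionVars false

namespace Pool.Agent.H.MP_4a16d5_al

open Finset Function

section comb
variable {R X : Type} [Fintype R] [DecidableEq R] [Fintype X] [DecidableEq X] {l : ℕ}

/-- change one coordinate -/
def upd (v : X × (Fin l → R)) (a : Fin l) (ρ : R) : X × (Fin l → R) := (v.1, update v.2 a ρ)

/-- a permutation that is scalar in coordinate a -/
def Good (cl : R → Bool) (a : Fin l) (τ : Equiv.Perm (X × (Fin l → R))) : Prop :=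
  ∀ v, (τ v).2 a = v.2 a ∧ ∀ ρ, cl ρ = cl (v.2 a) → τ (upd v a ρ) = upd (τ v) a ρ

theorem Good.one (cl : R → Bool) (a : Fin l) : Good (X := X) cl a 1 := fun _ => ⟨rfl, fun _ _ => rfl⟩

theorem Good.mul {cl : R → Bool} {a : Fin l} {σ τ : Equiv.Perm (X × (Fin l → R))}
    (h1 : Good cl a σ) (h2 : Good cl a τ) : Good cl a (σ * τ) := by
  intro v
  refine ⟨by rw [Equiv.Perm.mul_apply, (h1 _).1, (h2 _).1], fun ρ hρ => ?_⟩
  rw [Equiv.Perm.mul_apply, Equiv.Perm.mul_apply, (h2 _).2 ρ hρ, (h1 _).2 ρ (by rw [(h2 _).1, hρ])]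

theorem Good.inv {cl : R → Bool} {a : Fin l} {σ : Equiv.Perm (X × (Fin l → R))}
    (h1 : Good cl a σ) : Good cl a σ⁻¹ := by
  intro v
  have h2 : (σ⁻¹ v).2 a = v.2 a := by rw [← (h1 (σ⁻¹ v)).1]; simp
  refine ⟨h2, fun ρ hρ => ?_⟩
  rw [Equiv.Perm.inv_eq_iff_eq, (h1 _).2 ρ (by rw [h2, hρ])]; simp

/-- one more than the last zero position -/
def qq (π : Fin l → Bool) : ℕ := univ.sup fun c => if π c = true then 0 else (c : ℕ) + 1

theorem qq_le (π : Fin l → Bool) (t : ℕ) : qq π ≤ t ↔ ∀ c : Fin l, π c = false → (c : ℕ) < t := by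
  unfold qq
  rw [Finset.sup_le_iff]
  constructor
  · intro h c hc
    have := h c (mem_univ _)
    simpa [hc] using this
  · intro h c _
    by_cases hc : π c = true
    · simp [hc]
    · rw [if_neg hc]; exact h c (by simpa using hc)

theorem qq_l (π : Fin l → Bool) : qq π ≤ l := (qq_le π l).2 fun c _ => c.2

theorem qq_upd (π : Fin l → Bool) (c : Fin l) :
    (qq (update π c true) ≤ c ∧ qq (update π c false) = c + 1) ∨
    (c + 2 ≤ qq (update π c true) ∧ c + 2 ≤ qq (update π c false)) := by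
  by_cases h : ∀ d : Fin l, d ≠ c → π d = false → (d : ℕ) < c
  · left
    refine ⟨(qq_le _ _).2 fun d hd => ?_, le_antisymm ((qq_le _ _).2 fun d hd => ?_) ?_⟩
    · by_cases hdc : d = c
      · subst hdc; simp at hd
      · rw [update_of_ne hdc] at hd; exact h d hdc hd
    · by_cases hdc : d = c
      · subst hdc; omega
      · rw [update_of_ne hdc] at hd; exact (h d hdc hd).trans (Nat.lt_succ_self _)
    · exact (qq_le _ _).1 le_rfl c (by simp)
  · right
    push Not at h
    obtain ⟨d, hdc, hd, hle⟩ := h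
    have h1 : (d : ℕ) ≠ c := fun e => hdc (Fin.ext e)
    have h2 : ∀ b, (d : ℕ) < qq (update π c b) := fun b =>
      (qq_le _ _).1 le_rfl d (by rw [update_of_ne hdc, hd])
    exact ⟨by have := h2 true; omega, by have := h2 false; omega⟩

theorem card_pairs (cl : R → Bool) (P : Bool → X → Prop) [∀ b x, Decidable (P b x)] :
    (univ.filter fun y : X × R => P (cl y.2) y.1).card =
      (univ.filter (P true)).card * (univ.filter fun ρ => cl ρ = true).card +
      (univ.filter (P false)).card * (univ.filter fun ρ => cl ρ = false).card := by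
  rw [← card_product, ← card_product, ← card_union_of_disjoint]
  · congr 1
    ext ⟨x, ρ⟩
    cases h : cl ρ <;> simp [h]
  · rw [disjoint_left]
    rintro ⟨x, ρ⟩ h1 h2
    simp at h1 h2
    simp [h1.2] at h2

theorem ex_perm {α : Type} [Fintype α] [DecidableEq α] (A B : α → Prop) [DecidablePred A]
    [DecidablePred B] (h : (univ.filter A).card = (univ.filter B).card) :
    ∃ σ : Equiv.Perm α, ∀ x, B (σ x) ↔ A x := by
  have h1 : Fintype.card {x // A x} = Fintype.card {x // B x} := by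
    rw [Fintype.card_subtype, Fintype.card_subtype, h]
  let e := Fintype.equivOfCardEq h1
  refine ⟨e.extendSubtype, fun x => ⟨fun hb => ?_, fun ha => e.extendSubtype_mem x ha⟩⟩
  by_contra ha
  exact e.extendSubtype_not_mem x ha hb

end comb

theorem ex_sys (l : ℕ) (R : Type) [Fintype R] [DecidableEq R] (cl : R → Bool) (rs : R)
    (hrs : cl rs = false)
    (hK : 2 * (l + 1) ^ 2 * (univ.filter fun ρ => cl ρ = false).card ≤
      (univ.filter fun ρ => cl ρ = true).card) :
    ∃ (N : ℕ) (ty : Fin N × (Fin l → R) → ℕ) (T : ℕ → ℕ → Equiv.Perm (Fin N × (Fin l → R))),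
      (∀ v, ty v ≤ l) ∧ (∀ i ≤ l, ∀ j ≤ l, ∀ v, ty (T i j v) = j ↔ ty v = i) ∧
      (∀ i j k, T j k * T i j = T i k) ∧ (∀ i, T i i = 1) ∧
      (∀ v a ρ, cl ρ = cl (v.2 a) → ty (upd v a ρ) = ty v) ∧
      (∀ v (a : Fin l), ty v ≤ a → cl (v.2 a) = true) ∧
      (∀ (a : Fin l) (i j : ℕ), ((i ≤ a ∧ j ≤ a) ∨ (a < i ∧ a < j)) → Good cl a (T i j)) ∧
      ∀ i ≤ l, ∃ v, ty v = i ∧ ∀ a : Fin l, (a : ℕ) < i → v.2 a = rs := by
  have h0 : 0 < (univ.filter fun ρ => cl ρ = false).card := card_pos.2 ⟨rs, by simp [hrs]⟩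
  obtain ⟨N, n, n0, nsum, neq, npos⟩ := ex_num l _ _ h0 hK
  have hty : ∀ q, ∃ ty : Fin N → ℕ, q ≤ l → (∀ x, ty x ≤ l) ∧
      ∀ t ≤ l, (univ.filter fun x => ty x = t).card = n t q := by
    intro q
    by_cases hq : q ≤ l
    · obtain ⟨ty, h⟩ := ex_ty l N (fun t => n t q) (nsum q hq)
      exact ⟨ty, fun _ => h⟩
    · exact ⟨fun _ => 0, fun h => absurd h hq⟩
  choose tq htq using hty
  have hσ : ∀ (c : Fin l) (π : Fin l → Bool), ∃ σ : Equiv.Perm (Fin N × R), ∀ y,
      tq (qq (update π c (cl (σ y).2))) (σ y).1 = c + 1 ↔ tq (qq (update π c (cl y.2))) y.1 = c := by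
    intro c π
    refine ex_perm (fun y : Fin N × R => tq (qq (update π c (cl y.2))) y.1 = c)
      (fun y : Fin N × R => tq (qq (update π c (cl y.2))) y.1 = c + 1) ?_
    rw [card_pairs cl fun b x => tq (qq (update π c b)) x = c,
      card_pairs cl fun b x => tq (qq (update π c b)) x = c + 1]
    have hc := c.2
    rw [(htq _ (qq_l _)).2 c (by omega), (htq _ (qq_l _)).2 c (by omega),
      (htq _ (qq_l _)).2 (c + 1) (by omega), (htq _ (qq_l _)).2 (c + 1) (by omega)]
    rcases qq_upd π c with ⟨h1, h2⟩ | ⟨h1, h2⟩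
    · rw [h2, neq c hc _ h1, n0 c (c + 1) (by omega)]; ring
    · rw [n0 c _ (by omega), n0 c _ (by omega), n0 (c + 1) _ (by omega), n0 (c + 1) _ (by omega)]
  choose σ hσ using hσ
  have hu : ∀ (r : Fin l → R) c ρ, (cl ∘ update r c ρ) = update (cl ∘ r) c (cl ρ) :=
    fun r c ρ => comp_update cl r c ρ
  let S : Fin l → Equiv.Perm (Fin N × (Fin l → R)) := fun c =>
    { toFun := fun v => ((σ c (update (cl ∘ v.2) c true) (v.1, v.2 c)).1,
        update v.2 c (σ c (update (cl ∘ v.2) c true) (v.1, v.2 c)).2)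
      invFun := fun v => (((σ c (update (cl ∘ v.2) c true)).symm (v.1, v.2 c)).1,
        update v.2 c ((σ c (update (cl ∘ v.2) c true)).symm (v.1, v.2 c)).2)
      left_inv := fun v => by simp [hu]
      right_inv := fun v => by simp [hu] }
  let ty : Fin N × (Fin l → R) → ℕ := fun v => tq (qq (cl ∘ v.2)) v.1
  have hS : ∀ (c : Fin l) v, ty (S c v) = c + 1 ↔ ty v = c := by
    intro c v
    have := hσ c (update (cl ∘ v.2) c true) (v.1, v.2 c)
    simp only [update_idem] at this
    rw [show update (cl ∘ v.2) c (cl (v.2 c)) = cl ∘ v.2 from update_eq_self c (cl ∘ v.2)] at this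
    simp only [ty, S, Equiv.coe_fn_mk, hu]
    exact this
  have hSg : ∀ a c : Fin l, a ≠ c → Good cl a (S c) := by
    intro a c hac v
    refine ⟨by simp [S, update_of_ne hac], fun ρ hρ => ?_⟩
    have h1 : cl ∘ update v.2 a ρ = cl ∘ v.2 := by
      rw [hu, hρ]; exact update_eq_self a (cl ∘ v.2)
    simp only [S, upd, Equiv.coe_fn_mk, h1, update_of_ne hac.symm]
    rw [update_comm hac]
  obtain ⟨B, hB0, hB⟩ : ∃ B : ℕ → Equiv.Perm (Fin N × (Fin l → R)), B 0 = 1 ∧
      ∀ i, B (i + 1) = (if h : i < l then S ⟨i, h⟩ else 1) * B i :=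
    ⟨fun n => Nat.rec 1 (fun i b => (if h : i < l then S ⟨i, h⟩ else 1) * b) n, rfl, fun _ => rfl⟩
  have hBt : ∀ i ≤ l, ∀ v, ty (B i v) = i ↔ ty v = 0 := by
    intro i
    induction i with
    | zero => intro _ v; simp [hB0]
    | succ i ih =>
      intro hi v
      rw [hB, dif_pos (show i < l by omega), Equiv.Perm.mul_apply, ← ih (by omega)]
      exact hS ⟨i, by omega⟩ _
  have hBg : ∀ (a : Fin l) (i j : ℕ), i ≤ j → (j ≤ a ∨ a < i) → Good cl a (B j * (B i)⁻¹) := by
    intro a i j hij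
    induction j, hij using Nat.le_induction with
    | base => intro _; rw [mul_inv_cancel]; exact Good.one _ _
    | succ j hij ih =>
      intro h
      rw [hB, mul_assoc]
      refine Good.mul ?_ (ih (by omega))
      split_ifs with hj
      · exact hSg _ _ fun e => by have := congrArg Fin.val e; simp at this; omega
      · exact Good.one _ _
  refine ⟨N, ty, fun i j => B j * (B i)⁻¹, fun v => (htq _ (qq_l _)).1 _, fun i hi j hj v => ?_,
    fun i j k => by group, fun i => by group, fun v a ρ hρ => ?_, fun v a h => ?_,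
    fun a i j h => ?_, fun i hi => ?_⟩
  · rw [Equiv.Perm.mul_apply, hBt j hj, ← hBt i hi]; simp
  · have h1 : cl ∘ update v.2 a ρ = cl ∘ v.2 := by
      rw [hu, hρ]; exact update_eq_self a (cl ∘ v.2)
    simp only [ty, upd, h1]
  · by_contra hc
    have h1 : (a : ℕ) < qq (cl ∘ v.2) := (qq_le _ _).1 le_rfl a (by simpa using hc)
    have h2 := (htq _ (qq_l (cl ∘ v.2))).2 (ty v) ((htq _ (qq_l _)).1 _)
    rw [n0 _ _ (by omega), card_eq_zero, filter_eq_empty_iff] at h2
    exact h2 (mem_univ v.1) rfl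
  · rcases le_total i j with hij | hij
    · exact hBg a i j hij (by omega)
    · have := (hBg a j i hij (by omega)).inv
      simpa using this
  · have h1 : 0 < (univ.filter fun ρ => cl ρ = true).card :=
      lt_of_lt_of_le (by positivity) hK
    obtain ⟨r1, hr1⟩ := card_pos.1 h1
    have hr1' : cl r1 = true := by simpa using hr1
    let r : Fin l → R := fun a => if (a : ℕ) < i then rs else r1
    have h2 : qq (cl ∘ r) = i := by
      refine le_antisymm ((qq_le _ _).2 fun c hc => ?_) ?_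
      · by_contra h; simp [r, h, hr1'] at hc
      · rcases i with _ | i
        · omega
        · exact (qq_le _ _).1 le_rfl ⟨i, by omega⟩ (by simp [r, hrs])
    have h3 := npos i hi
    rw [← (htq i hi).2 i hi] at h3
    obtain ⟨x, hx⟩ := card_pos.1 h3
    exact ⟨(x, r), by simpa [ty, h2] using hx, fun a ha => if_pos ha⟩

end Pool.Agent.H.MP_4a16d5_al
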