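import Pool.Agent.H.MP_4a16d5_al.D
import Pool.Agent.H.MP_4a16d5_al.B2

set_option autoImplicit false
set_option linter.unusedSectionVars false

namespace Pool.Agent.H.MP_4a16d5_al

open Finset Function

theorem sum_fib {R M : Type} [Fintype R] [DecidableEq R] [AddCommMonoid M] {l : ℕ} (a : Fin l)
    (F : (Fin l → R) → M) (h : ∀ r, ∑ ρ, F (update r a ρ) = 0) [Nonempty R] : ∑ r, F r = 0 := by
  rw [← Equiv.sum_comp (Equiv.funSplitAt a R).symm, Fintype.sum_prod_type_right]
  refine sum_eq_zero fun y _ => ?_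
  rw [← h ((Equiv.funSplitAt a R).symm (Classical.arbitrary R, y))]
  refine sum_congr rfl fun ρ _ => congrArg F ?_
  funext c
  by_cases hc : c = a
  · subst hc; simp
  · simp [hc]

theorem sum_cls {R W : Type} [Fintype R] [DecidableEq R] [CommRing W] (cl : R → Bool)
    (h Φ : R → W) (hΦ : ∀ ρ ρ', cl ρ = cl ρ' → Φ ρ = Φ ρ') (b : Bool)
    (h1 : ∑ ρ with cl ρ = b, h ρ = 0) : ∑ ρ with cl ρ = b, h ρ * Φ ρ = 0 := by
  rcases (univ.filter fun ρ => cl ρ = b).eq_empty_or_nonempty with he | ⟨ρ0, h0⟩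
  · rw [he, sum_empty]
  · rw [sum_congr rfl fun ρ hρ => show h ρ * Φ ρ = h ρ * Φ ρ0 by
      rw [hΦ ρ ρ0 (by simp at hρ h0; rw [hρ, h0])], ← sum_mul, h1, zero_mul]

/-- tensor power of a matrix over the cuts -/
def tens {W A B : Type} [CommRing W] (N l : ℕ) (g : Matrix A B W) :
    Matrix (Fin N × (Fin l → A)) (Fin N × (Fin l → B)) W :=
  Matrix.of fun v w => if v.1 = w.1 then ∏ a, g (v.2 a) (w.2 a) else 0

theorem tens_mul {W A B : Type} [CommRing W] [Fintype A] [DecidableEq A] [Fintype B] (N l : ℕ)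
    (g : Matrix A B W) (h : Matrix B A W) (gh : g * h = 1) : tens N l g * tens N l h = 1 := by
  ext ⟨x, u⟩ ⟨x', u'⟩
  simp only [tens, Matrix.mul_apply, Matrix.of_apply, Fintype.sum_prod_type, ite_mul, zero_mul]
  rw [sum_eq_single x (fun y _ hy => by simp [hy.symm]) (by simp)]
  by_cases hx : x = x'
  · subst hx
    simp only [if_true, ← prod_mul_distrib]
    rw [← Fintype.prod_sum fun s ρ => g (u s) ρ * h ρ (u' s)]
    simp only [← Matrix.mul_apply, gh, Matrix.one_apply]
    rw [prod_boole]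
    simp [funext_iff]
  · simp [hx]

theorem ex_units {W : Type} [CommRing W] (l L : ℕ) (X : Gad W L)
    (hK : 2 * (l + 1) ^ 2 * X.r0 ≤ X.r1) :
    ∃ (V : Type) (_ : Fintype V) (_ : DecidableEq V) (γ : V → Fin l → X.Γ)
      (E : Fin (l + 1) → Fin (l + 1) → Matrix V V W),
      (∀ i j j' m, E i j * E j' m = if j = j' then E i m else 0) ∧ ∑ i, E i i = 1 ∧
      (∀ i j v w (a : Fin l), E i j v w ≠ 0 → (i : ℕ) ≤ a → (j : ℕ) ≤ a → X.S (γ v a - γ w a)) ∧
      (∀ i j v w (a : Fin l), E i j v w ≠ 0 → (a : ℕ) < i → (a : ℕ) < j →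
        X.S (γ v a - γ w a) ∨ γ v a - γ w a = 0) ∧
      ∀ i j : Fin (l + 1), ∃ α β : V → W,
        (∀ v w (a : Fin l), α v ≠ 0 → β w ≠ 0 → (a : ℕ) < i → (a : ℕ) < j → γ v a - γ w a = 0) ∧
        ∀ i' j', ∑ v, ∑ w, α v * E i' j' v w * β w = if i' = i ∧ j' = j then 1 else 0 := by
  obtain ⟨N, ty, T, hle, hty, hTT, hT1, hinv, hlow, hgood, hex⟩ := ex_sys l X.R X.cl X.rs X.cls hK
  have fl : ∀ i : Fin (l + 1), (i : ℕ) ≤ l := fun i => Nat.lt_succ_iff.1 i.2
  let E' : Fin (l + 1) → Fin (l + 1) → Matrix (Fin N × (Fin l → X.R)) (Fin N × (Fin l → X.R)) W :=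
    fun i j => Matrix.of fun v w => if ty v = i ∧ w = T i j v then 1 else 0
  have hE' : ∀ i j j' m, E' i j * E' j' m = if j = j' then E' i m else 0 := by
    intro i j j' m
    ext v w
    simp only [E', Matrix.mul_apply, Matrix.of_apply]
    rw [sum_eq_single (T i j v) (fun y _ hy => by simp [hy]) (by simp)]
    by_cases hv : ty v = i
    · have h1 := (hty i (fl i) j (fl j) v).2 hv
      by_cases hj : j = j'
      · subst hj
        have h2 : T j m (T i j v) = T i m v := by rw [← Equiv.Perm.mul_apply, hTT]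
        simp [hv, h1, h2]
      · have : ¬ ((j : ℕ) = j') := fun h => hj (Fin.ext h)
        simp [hj, h1, this]
    · by_cases hj : j = j' <;> simp [hv, hj]
  have hE1 : ∑ i, E' i i = 1 := by
    ext v w
    simp only [E', Matrix.sum_apply, Matrix.of_apply, hT1]
    rw [sum_eq_single ⟨ty v, Nat.lt_succ_iff.2 (hle v)⟩
      (fun y _ hy => if_neg fun h => hy (Fin.ext h.1.symm)) (by simp)]
    simp [Matrix.one_apply, eq_comm]
  have gh := tens_mul N l X.g X.h X.gh
  have hg := tens_mul N l X.h X.g X.hg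
  have hent : ∀ i j v w, (tens N l X.g * E' i j * tens N l X.h) v w =
      ∑ y, if ty y = i then tens N l X.g v y * tens N l X.h (T i j y) w else 0 := by
    intro i j v w
    rw [Matrix.mul_assoc, Matrix.mul_apply]
    refine sum_congr rfl fun y _ => ?_
    simp only [E', Matrix.mul_apply, Matrix.of_apply]
    rw [sum_eq_single (T i j y) (fun z _ hz => by simp [hz]) (by simp)]
    by_cases hy : ty y = i <;> simp [hy]
  have key : ∀ (i j : Fin (l + 1)) v w (a : Fin l), Good X.cl a (T i j) →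
      ∑ ρ with X.cl ρ = true, X.g (v.2 a) ρ * X.h ρ (w.2 a) = 0 →
      ((i : ℕ) ≤ a ∨ ∑ ρ with X.cl ρ = false, X.g (v.2 a) ρ * X.h ρ (w.2 a) = 0) →
      (tens N l X.g * E' i j * tens N l X.h) v w = 0 := by
    intro i j v w a hG h1 h0
    have : Nonempty X.R := ⟨X.rs⟩
    rw [hent, Fintype.sum_prod_type]
    refine sum_eq_zero fun x _ => sum_fib a _ fun r => ?_
    let Φ : X.R → W := fun ρ => if ty (x, update r a ρ) = i then
      (if v.1 = x then ∏ c ∈ univ.erase a, X.g (v.2 c) (r c) else 0) *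
      (if (T i j (x, update r a ρ)).1 = w.1 then
        ∏ c ∈ univ.erase a, X.h ((T i j (x, update r a ρ)).2 c) (w.2 c) else 0) else 0
    have hΦ : ∀ ρ ρ', X.cl ρ = X.cl ρ' → Φ ρ = Φ ρ' := by
      intro ρ ρ' hρ
      have e1 : (x, update r a ρ) = upd (x, update r a ρ') a ρ := by simp [upd]
      have e2 : X.cl ρ = X.cl ((x, update r a ρ').2 a) := by simpa using hρ
      simp only [Φ]
      rw [e1, hinv _ a ρ e2, (hG _).2 ρ e2]
      have e3 : ∏ c ∈ univ.erase a, X.h ((upd (T i j (x, update r a ρ')) a ρ).2 c) (w.2 c) =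
          ∏ c ∈ univ.erase a, X.h ((T i j (x, update r a ρ')).2 c) (w.2 c) :=
        prod_congr rfl fun c hc => by simp [upd, update_of_ne (ne_of_mem_erase hc)]
      rw [e3]; rfl
    have hF : ∀ ρ, (if ty (x, update r a ρ) = i then tens N l X.g v (x, update r a ρ) *
        tens N l X.h (T i j (x, update r a ρ)) w else 0) =
        X.g (v.2 a) ρ * X.h ρ (w.2 a) * Φ ρ := by
      intro ρ
      simp only [Φ, tens, Matrix.of_apply]
      rw [← mul_prod_erase univ _ (mem_univ a), ← mul_prod_erase univ _ (mem_univ a), (hG _).1]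
      have e3 : ∏ c ∈ univ.erase a, X.g (v.2 c) (update r a ρ c) =
          ∏ c ∈ univ.erase a, X.g (v.2 c) (r c) :=
        prod_congr rfl fun c hc => by rw [update_of_ne (ne_of_mem_erase hc)]
      rw [e3]
      simp only [update_self]
      split_ifs <;> ring
    simp only [hF]
    rw [← sum_filter_add_sum_filter_not univ fun ρ => X.cl ρ = true, sum_cls X.cl _ Φ hΦ true h1,
      zero_add]
    simp only [Bool.not_eq_true]
    rcases h0 with h0 | h0
    · refine sum_eq_zero fun ρ hρ => ?_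
      have : ty (x, update r a ρ) ≠ i := by
        intro h
        have := hlow (x, update r a ρ) a (by omega)
        simp at this hρ
        simp [hρ] at this
      simp [Φ, this]
    · exact sum_cls X.cl _ Φ hΦ false h0
  refine ⟨Fin N × (Fin l → X.G), inferInstance, inferInstance, fun v a => X.γ (v.2 a),
    fun i j => tens N l X.g * E' i j * tens N l X.h, fun i j j' m => ?_, ?_,
    fun i j v w a h hi hj => ?_, fun i j v w a h hi hj => ?_, fun i j => ?_⟩
  · have : tens N l X.g * E' i j * tens N l X.h * (tens N l X.g * E' j' m * tens N l X.h) =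
        tens N l X.g * (E' i j * (tens N l X.h * tens N l X.g) * E' j' m) * tens N l X.h := by
      simp only [Matrix.mul_assoc]
    rw [this, hg, Matrix.mul_one, hE']
    split_ifs <;> simp
  · rw [← Matrix.sum_mul, ← Matrix.mul_sum, hE1, Matrix.mul_one, gh]
  · by_contra hc
    exact h (key i j v w a (hgood a i j (Or.inl ⟨hi, hj⟩)) (by
      by_contra h1; exact hc (X.pos _ _ h1)) (Or.inl hi))
  · by_contra hc
    push Not at hc
    refine h (key i j v w a (hgood a i j (Or.inr ⟨hi, hj⟩)) (by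
      by_contra h1; exact hc.1 (X.pos _ _ h1)) (Or.inr ?_))
    by_contra h1
    rcases X.offd h1 with h2 | h2
    · exact hc.2 (by rw [h2, sub_self])
    · exact hc.1 h2
  · obtain ⟨v', hv1, hv2⟩ : ∃ v', ty v' = i ∧ ∀ a : Fin l, (a : ℕ) < i → (a : ℕ) < j →
        v'.2 a = X.rs := by
      rcases le_total (i : ℕ) j with hij | hij
      · obtain ⟨v, h1, h2⟩ := hex i (fl i)
        exact ⟨v, h1, fun a ha _ => h2 a ha⟩
      · obtain ⟨v, h1, h2⟩ := hex j (fl j)
        refine ⟨T j i v, (hty j (fl j) i (fl i) v).2 h1, fun a ha hb => ?_⟩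
        rw [(hgood a j i (Or.inr ⟨hb, ha⟩) v).1, h2 a hb]
    refine ⟨fun v => tens N l X.h v' v, fun w => tens N l X.g w (T i j v'),
      fun v w a h1 h2 hi hj => ?_, fun i' j' => ?_⟩
    · simp only [tens, Matrix.of_apply] at h1 h2
      have e1 : v.2 a = X.us := X.h_s _ fun h0 => h1 (by
        rw [prod_eq_zero (mem_univ a) (by rw [hv2 a hi hj]; exact h0)]; simp)
      have e2 : w.2 a = X.us := X.g_s _ fun h0 => h2 (by
        rw [prod_eq_zero (mem_univ a) (by
          rw [(hgood a i j (Or.inr ⟨hi, hj⟩) v').1, hv2 a hi hj]; exact h0)]; simp)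
      simp only [e1, e2, sub_self]
    · have : ∑ v, ∑ w, tens N l X.h v' v * (tens N l X.g * E' i' j' * tens N l X.h) v w *
          tens N l X.g w (T i j v') =
          (tens N l X.h * (tens N l X.g * E' i' j' * tens N l X.h) * tens N l X.g) v' (T i j v') := by
        rw [sum_comm]
        generalize tens N l X.g * E' i' j' * tens N l X.h = M
        simp only [Matrix.mul_apply, sum_mul]
      rw [this]
      have e : tens N l X.h * (tens N l X.g * E' i' j' * tens N l X.h) * tens N l X.g =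
          (tens N l X.h * tens N l X.g) * E' i' j' * (tens N l X.h * tens N l X.g) := by
        simp only [Matrix.mul_assoc]
      rw [e, hg, Matrix.one_mul, Matrix.mul_one]
      simp only [E', Matrix.of_apply]
      congr 1
      apply propext
      constructor
      · rintro ⟨h1, h2⟩
        have h3 : i' = i := Fin.ext (by rw [← h1, hv1])
        subst h3
        have h4 := (hty i' (fl i') j (fl j) v').2 hv1
        have h5 := (hty i' (fl i') j' (fl j') v').2 hv1
        rw [← h2, h4] at h5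
        exact ⟨rfl, Fin.ext h5.symm⟩
      · rintro ⟨rfl, rfl⟩
        exact ⟨hv1, rfl⟩

end Pool.Agent.H.MP_4a16d5_al
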