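import Pool.Agent.H.MP_4a16d5_al.A2

set_option autoImplicit false
set_option linter.unusedSectionVars false

namespace Pool.Agent.H.MP_4a16d5_al

open Finset Function

theorem lsum_step {α : Type} (f g : α → ℕ) (d : ℕ) (m : List α) (h : ∀ t ∈ m, f t ≤ g t) (t0 : α)
    (h0 : t0 ∈ m) (hd : f t0 + d ≤ g t0) : (m.map f).sum + d ≤ (m.map g).sum := by
  induction m with
  | nil => simp at h0
  | cons t m ih =>
    simp only [List.map_cons, List.sum_cons]
    have h1 : (m.map f).sum ≤ (m.map g).sum :=
      List.sum_le_sum fun x hx => h x (List.mem_cons_of_mem _ hx)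
    rcases List.mem_cons.1 h0 with rfl | h2
    · omega
    · have := ih (fun x hx => h x (List.mem_cons_of_mem _ hx)) h2
      have := h t List.mem_cons_self
      omega

theorem key_cost {Ed Γ : Type} [AddCommGroup Γ] {l k L : ℕ} (a : ℕ → ℕ)
    (hm : ∀ i j, i ≤ j → j ≤ l → a i ≤ a j) (ha : ∀ i ≤ l, 1 ≤ a i ∧ a i ≤ k)
    (hL : (l + 1) * k + 2 * l ≤ L) (S : Γ → Prop)
    (girth : ∀ x, S x → ∀ m : List Γ, m.length ≤ L → (∀ y ∈ m, S y ∨ y = 0) → x + m.sum ≠ 0)
    (I J : Ed → ℕ) (hI : ∀ t, I t ≤ l) (σ : Ed → Fin l → Γ) (adm : Ed → Prop)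
    (hlow : ∀ t (c : Fin l), adm t → I t ≤ c → J t ≤ c → S (σ t c))
    (hhigh : ∀ t (c : Fin l), adm t → (c : ℕ) < I t → (c : ℕ) < J t → S (σ t c) ∨ σ t c = 0)
    (e : Ed) (he : adm e) (m : List Ed) (hadm : ∀ t ∈ m, adm t) (i j : ℕ) (hi : i ≤ l) (hj : j ≤ l)
    (hφ : ∀ φ : ℕ → ℤ, φ (I e) - φ (J e) + (m.map fun t => φ (I t) - φ (J t)).sum = φ i - φ j)
    (hδ : ∀ c : Fin l, (c : ℕ) < i → (c : ℕ) < j → σ e c + (m.map fun t => σ t c).sum = 0) :
    a i ≤ a (I e) + (m.map fun t => cst a (I t) (J t)).sum := by
  by_cases hlen : m.length ≤ L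
  swap
  · have h1 : ∀ m : List Ed, (m.length : ℤ) + (m.map fun t => (I t : ℤ) - (J t : ℤ)).sum ≤
        (l + 1) * ((m.map fun t => cst a (I t) (J t)).sum : ℕ) := by
      intro m
      induction m with
      | nil => simp
      | cons t m ih =>
        simp only [List.map_cons, List.sum_cons, List.length_cons]
        have h2 : (1 : ℤ) + ((I t : ℤ) - J t) ≤ (l + 1) * (cst a (I t) (J t) : ℕ) := by
          by_cases h : J t ≤ I t
          · have h3 : 1 ≤ cst a (I t) (J t) := by unfold cst; rw [if_pos h]; exact le_max_right _ _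
            have h4 : (1 : ℤ) ≤ (cst a (I t) (J t) : ℕ) := by exact_mod_cast h3
            have h5 : (I t : ℤ) ≤ l := by exact_mod_cast hI t
            nlinarith
          · have : (0 : ℤ) ≤ (l + 1) * (cst a (I t) (J t) : ℕ) := by positivity
            omega
        push_cast at ih h2 ⊢
        linarith
    have h2 := h1 m
    have h3 := hφ fun x => x
    have h4 := (ha i hi).2
    have h5 := hI e
    have h6 : (l + 1) * k ≤ (l + 1) * (m.map fun t => cst a (I t) (J t)).sum := by
      zify at *
      omega
    have := Nat.le_of_mul_le_mul_left h6 (by omega)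
    omega
  have cross : ∀ c, I e ≤ c → c < i → ∃ t ∈ m, J t ≤ c ∧ c < I t := by
    intro c h1 h2
    by_contra hc
    push Not at hc
    have h3 := hφ fun x => if c < x then 1 else 0
    have h4 : ∀ t ∈ m, ((if c < I t then 1 else 0 : ℤ) - if c < J t then 1 else 0) ≤ 0 := by
      intro t ht
      have := hc t ht
      split_ifs <;> omega
    have h5 : ∀ m' : List Ed, (∀ t ∈ m', t ∈ m) →
        (m'.map fun t => (if c < I t then 1 else 0 : ℤ) - if c < J t then 1 else 0).sum ≤ 0 ∧
        ((m'.map fun t => (if c < I t then 1 else 0 : ℤ) - if c < J t then 1 else 0).sum = 0 →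
          ∀ t ∈ m', ((if c < I t then 1 else 0 : ℤ) - if c < J t then 1 else 0) = 0) := by
      intro m'
      induction m' with
      | nil => simp
      | cons t m' ih =>
        intro h
        obtain ⟨b1, b2⟩ := ih fun x hx => h x (List.mem_cons_of_mem _ hx)
        have b3 := h4 t (h t List.mem_cons_self)
        simp only [List.map_cons, List.sum_cons]
        refine ⟨by linarith, fun b4 x hx => ?_⟩
        rcases List.mem_cons.1 hx with rfl | hx
        · linarith
        · exact b2 (by linarith) x hx
    obtain ⟨b1, b2⟩ := h5 m fun _ h => h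
    simp only [if_pos h2, if_neg (not_lt.2 h1)] at h3
    have c1 : c < j := by
      by_contra h; rw [if_neg h] at h3; split_ifs at h3 <;> linarith
    rw [if_pos c1] at h3
    have c2 : ¬ c < J e := by
      intro h; rw [if_pos h] at h3; linarith
    rw [if_neg c2] at h3
    have b3 := b2 (by linarith)
    refine girth _ (hlow e ⟨c, by omega⟩ he h1 (not_lt.1 c2)) (m.map fun t => σ t ⟨c, by omega⟩)
      (by simpa using hlen) ?_ (hδ ⟨c, by omega⟩ h2 c1)
    intro y hy
    obtain ⟨t, ht, rfl⟩ := List.mem_map.1 hy
    have b4 := b3 t ht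
    by_cases d1 : c < I t
    · by_cases d2 : c < J t
      · exact hhigh t _ (hadm t ht) d1 d2
      · simp [d1, d2] at b4
    · by_cases d2 : c < J t
      · simp [d1, d2] at b4
      · exact Or.inl (hlow t _ (hadm t ht) (not_lt.1 d1) (not_lt.1 d2))
  by_cases hie : i ≤ I e
  · have := hm _ _ hie (hI e); omega
  have h1 : ∀ n, I e ≤ n → n ≤ i →
      a n ≤ a (I e) + (m.map fun t => a (min (I t) n) - a (min (J t) n)).sum := by
    intro n hn
    induction n, hn using Nat.le_induction with
    | base => intro _; omega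
    | succ n hn ih =>
      intro h
      obtain ⟨t0, ht0, h2, h3⟩ := cross n hn (by omega)
      have h4 := lsum_step (fun t => a (min (I t) n) - a (min (J t) n))
        (fun t => a (min (I t) (n + 1)) - a (min (J t) (n + 1))) (a (n + 1) - a n) m (fun t _ => by
          by_cases d : J t ≤ n
          · have := hm (min (I t) n) (min (I t) (n + 1)) (by omega) (by omega)
            simp only [min_eq_left d, min_eq_left (d.trans (Nat.le_succ n))]
            omega
          · have := hm (min (I t) n) n (by omega) (by omega)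
            simp only [min_eq_right (not_le.1 d).le]
            omega) t0 ht0 (by
          have e1 := hm (J t0) n h2 (by omega)
          have e2 := hm n (n + 1) (by omega) (by omega)
          simp only [min_eq_left h2, min_eq_left (show J t0 ≤ n + 1 by omega), min_eq_right h3.le,
            min_eq_right (show n + 1 ≤ I t0 by omega)]
          omega)
      have := ih (by omega)
      omega
  refine (h1 i (by omega) le_rfl).trans (Nat.add_le_add_left (List.sum_le_sum fun t _ => ?_) _)
  refine le_trans ?_ (le_max_left _ _)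
  by_cases d : J t ≤ i
  · have := hm (min (I t) i) (I t) (by omega) (hI t)
    rw [min_eq_left d]; omega
  · have := hm (min (I t) i) i (by omega) hi
    rw [min_eq_right (not_le.1 d).le]; omega

end Pool.Agent.H.MP_4a16d5_al
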