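import Pool.Agent.H.MP_4a16d5_al.E
import Pool.Agent.H.MP_4a16d5_al.D2

set_option autoImplicit false
set_option linter.unusedSectionVars false

namespace Pool.Agent.H.MP_4a16d5_al

open Finset Function

theorem quot_rep {R W A n : Type} [Ring R] [CommRing W] [CommRing A] [Algebra W A] [Fintype n]
    [DecidableEq n] (C a : Submodule W A) (h1 : (1 : A) ∈ C) (hC : C * C ≤ C) (ha : C * a ≤ a)
    (g : R → Matrix n n A) (hg : ∀ r x y, g r x y ∈ C)
    (hmul : ∀ r r' x y, (g (r * r') - g r * g r') x y ∈ a)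
    (hadd : ∀ r r' x y, (g (r + r') - (g r + g r')) x y ∈ a)
    (hone : ∀ x y, (g 1 - 1) x y ∈ a) (hinj : ∀ r, (∀ x y, g r x y ∈ a) → r = 0) :
    ∃ (C : Type) (_ : CommRing C) (n : ℕ) (f : R →+* Matrix (Fin n) (Fin n) C),
      Function.Injective f := by
  let S : Subalgebra W A := C.toSubalgebra h1 fun x y hx hy => hC (Submodule.mul_mem_mul hx hy)
  let 𝔞 : Ideal S :=
    { carrier := {x | (x : A) ∈ a}
      add_mem' := fun hx hy => a.add_mem hx hy
      zero_mem' := a.zero_mem
      smul_mem' := fun c x hx => ha (Submodule.mul_mem_mul c.2 hx) }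
  let G : R → Matrix n n S := fun r => Matrix.of fun x y => ⟨g r x y, hg r x y⟩
  have heq : ∀ M M' : Matrix n n S, (∀ x y, ((M - M').map Subtype.val) x y ∈ a) →
      (Ideal.Quotient.mk 𝔞).mapMatrix M = (Ideal.Quotient.mk 𝔞).mapMatrix M' := by
    intro M M' h
    ext x y
    exact Ideal.Quotient.eq.2 (h x y)
  let φ : R →* Matrix n n (S ⧸ 𝔞) :=
    { toFun := fun r => (Ideal.Quotient.mk 𝔞).mapMatrix (G r)
      map_one' := by
        rw [← map_one (Ideal.Quotient.mk 𝔞).mapMatrix]
        refine heq _ _ fun x y => ?_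
        have := hone x y
        by_cases h : x = y <;> simpa [G, Matrix.one_apply, h] using this
      map_mul' := fun r r' => by
        rw [← map_mul]
        refine heq _ _ fun x y => ?_
        simpa [G, Matrix.mul_apply] using hmul r r' x y }
  let f : R →+* Matrix n n (S ⧸ 𝔞) := RingHom.mk' φ fun r r' => by
    show (Ideal.Quotient.mk 𝔞).mapMatrix (G (r + r')) = (Ideal.Quotient.mk 𝔞).mapMatrix (G r) +
      (Ideal.Quotient.mk 𝔞).mapMatrix (G r')
    rw [← map_add]
    refine heq _ _ fun x y => ?_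
    simpa [G] using hadd r r' x y
  refine ⟨S ⧸ 𝔞, inferInstance, Fintype.card n,
    (Matrix.reindexAlgEquiv ℤ (S ⧸ 𝔞) (Fintype.equivFin n)).toRingEquiv.toRingHom.comp f, ?_⟩
  rw [RingHom.coe_comp]
  refine Function.Injective.comp (RingEquiv.injective _) ?_
  rw [injective_iff_map_eq_zero]
  intro r hr
  refine hinj r fun x y => ?_
  have : Ideal.Quotient.mk 𝔞 (G r x y) = 0 := congrFun (congrFun hr x) y
  exact Ideal.Quotient.eq_zero_iff_mem.1 this

section psi
variable {W V H F I : Type} [CommRing W] [Fintype V] [DecidableEq V] [AddCommGroup H]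
  [Fintype F] [DecidableEq F] [Fintype I] [DecidableEq I]

/-- degree of an edge -/
def dg (γ : V → H) (e : I × I × V × V) : (I → ℤ) × H :=
  (Pi.single e.1 1 - Pi.single e.2.1 1, γ e.2.2.1 - γ e.2.2.2)

/-- the twisted representation -/
noncomputable def Psi (γ : V → H) (E : I → I → Matrix V V W) (M : Matrix (F × I) (F × I) W) :
    Matrix (F × V) (F × V) (AddMonoidAlgebra W ((I → ℤ) × H)) :=
  Matrix.of fun x y => ∑ i, ∑ j, AddMonoidAlgebra.single (dg γ (i, j, x.2, y.2))
    (M (x.1, i) (y.1, j) * E i j x.2 y.2)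

theorem Psi_sub (γ : V → H) (E : I → I → Matrix V V W) (M M' : Matrix (F × I) (F × I) W) :
    Psi γ E (M - M') = Psi γ E M - Psi γ E M' := by
  refine Matrix.ext fun x y => ?_
  simp [Psi, sub_mul, AddMonoidAlgebra.single_sub]

theorem Psi_add (γ : V → H) (E : I → I → Matrix V V W) (M M' : Matrix (F × I) (F × I) W) :
    Psi γ E (M + M') = Psi γ E M + Psi γ E M' := by
  refine Matrix.ext fun x y => ?_
  simp [Psi, add_mul, AddMonoidAlgebra.single_add, sum_add_distrib]

theorem single_sum' {G ι : Type} (g : G) (s : Finset ι) (f : ι → W) :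
    (AddMonoidAlgebra.single g (∑ i ∈ s, f i) : AddMonoidAlgebra W G) =
      ∑ i ∈ s, AddMonoidAlgebra.single g (f i) :=
  map_sum (AddMonoidAlgebra.singleAddHom g) f s

theorem Psi_diag (γ : V → H) (E : I → I → Matrix V V W) (h1 : ∑ i, E i i = 1) (β : F → F → W)
    (x y : F × V) : Psi γ E (Matrix.of fun a b => if a.2 = b.2 then β a.1 b.1 else 0) x y =
      if x.2 = y.2 then AddMonoidAlgebra.single 0 (β x.1 y.1) else 0 := by
  have h2 : ∀ i, ∑ j, (AddMonoidAlgebra.single (dg γ (i, j, x.2, y.2))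
      ((if i = j then β x.1 y.1 else 0) * E i j x.2 y.2) : AddMonoidAlgebra W _) =
      AddMonoidAlgebra.single (0, γ x.2 - γ y.2) (β x.1 y.1 * E i i x.2 y.2) := by
    intro i
    rw [sum_eq_single i (fun j _ hj => by simp [hj.symm]) (by simp)]
    simp [dg]
  simp only [Psi, Matrix.of_apply, h2]
  rw [← single_sum', ← mul_sum, ← Matrix.sum_apply, h1, Matrix.one_apply]
  split_ifs with h
  · simp [h]; rfl
  · simp

theorem Psi_one (γ : V → H) (E : I → I → Matrix V V W) (h1 : ∑ i, E i i = 1) :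
    Psi γ E (1 : Matrix (F × I) (F × I) W) = 1 := by
  refine Matrix.ext fun x y => ?_
  have : (1 : Matrix (F × I) (F × I) W) =
      Matrix.of fun a b => if a.2 = b.2 then (if a.1 = b.1 then 1 else 0) else 0 := by
    ext a b
    simp only [Matrix.one_apply, Matrix.of_apply, Prod.ext_iff]
    split_ifs <;> simp_all
  rw [this, Psi_diag γ E h1 fun s s' => if s = s' then 1 else 0]
  simp only [Matrix.one_apply, Prod.ext_iff]
  split_ifs <;> simp_all [AddMonoidAlgebra.one_def]

theorem Psi_mul (γ : V → H) (E : I → I → Matrix V V W)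
    (hE : ∀ i j j' m, E i j * E j' m = if j = j' then E i m else 0)
    (M M' : Matrix (F × I) (F × I) W) : Psi γ E (M * M') = Psi γ E M * Psi γ E M' := by
  refine Matrix.ext fun x y => ?_
  have h1 : ∀ (s : F) i j j' m, ∑ u, (AddMonoidAlgebra.single (dg γ (i, j, x.2, u))
      (M (x.1, i) (s, j) * E i j x.2 u) : AddMonoidAlgebra W _) *
      AddMonoidAlgebra.single (dg γ (j', m, u, y.2)) (M' (s, j') (y.1, m) * E j' m u y.2) =
      if j = j' then AddMonoidAlgebra.single (dg γ (i, m, x.2, y.2))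
        (M (x.1, i) (s, j) * M' (s, j) (y.1, m) * E i m x.2 y.2) else 0 := by
    intro s i j j' m
    have h2 : ∀ u, dg γ (i, j, x.2, u) + dg γ (j', m, u, y.2) =
        (Pi.single i 1 - Pi.single j 1 + (Pi.single j' 1 - Pi.single m 1), γ x.2 - γ y.2) := by
      intro u; simp [dg]
    simp only [AddMonoidAlgebra.single_mul_single, h2]
    rw [← single_sum']
    have h3 : ∑ u, M (x.1, i) (s, j) * E i j x.2 u * (M' (s, j') (y.1, m) * E j' m u y.2) =
        M (x.1, i) (s, j) * M' (s, j') (y.1, m) * (E i j * E j' m) x.2 y.2 := by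
      rw [Matrix.mul_apply, mul_sum]
      exact sum_congr rfl fun u _ => by ring
    rw [h3, hE]
    split_ifs with h
    · subst h; simp [dg]
    · simp
  simp only [Psi, Matrix.of_apply, Matrix.mul_apply, Fintype.sum_prod_type, sum_mul, mul_sum,
    single_sum']
  symm
  calc ∑ s, ∑ u, ∑ j', ∑ m, ∑ i, ∑ j, (AddMonoidAlgebra.single (dg γ (i, j, x.2, u))
        (M (x.1, i) (s, j) * E i j x.2 u) : AddMonoidAlgebra W _) *
        AddMonoidAlgebra.single (dg γ (j', m, u, y.2)) (M' (s, j') (y.1, m) * E j' m u y.2)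
      = ∑ s, ∑ j', ∑ m, ∑ i, ∑ j, ∑ u, (AddMonoidAlgebra.single (dg γ (i, j, x.2, u))
        (M (x.1, i) (s, j) * E i j x.2 u) : AddMonoidAlgebra W _) *
        AddMonoidAlgebra.single (dg γ (j', m, u, y.2)) (M' (s, j') (y.1, m) * E j' m u y.2) := by
        refine sum_congr rfl fun s _ => ?_
        rw [sum_comm]
        refine sum_congr rfl fun j' _ => ?_
        rw [sum_comm]
        refine sum_congr rfl fun m _ => ?_
        rw [sum_comm]
        refine sum_congr rfl fun i _ => ?_
        rw [sum_comm]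
    _ = ∑ s, ∑ j', ∑ m, ∑ i, AddMonoidAlgebra.single (dg γ (i, m, x.2, y.2))
        (M (x.1, i) (s, j') * M' (s, j') (y.1, m) * E i m x.2 y.2) := by
        simp only [h1, sum_ite_eq', mem_univ, if_true]
    _ = ∑ s, ∑ i, ∑ m, ∑ j', AddMonoidAlgebra.single (dg γ (i, m, x.2, y.2))
        (M (x.1, i) (s, j') * M' (s, j') (y.1, m) * E i m x.2 y.2) := by
        refine sum_congr rfl fun s _ => ?_
        rw [sum_comm]
        rw [sum_congr rfl fun m _ => sum_comm]
        rw [sum_comm]
    _ = _ := by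
        rw [sum_comm]
        refine sum_congr rfl fun i _ => ?_
        rw [sum_comm]

end psi

end Pool.Agent.H.MP_4a16d5_al
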