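import Pool.Agent.H.MP_4a16d5_al.F

set_option autoImplicit false
set_option linter.unusedSectionVars false

namespace Pool.Agent.H.MP_4a16d5_al

open Finset Function

theorem zdvd {p k n : ℕ} (hn : n ≤ k) {x : ℤ} (h : (p : ZMod (p ^ k)) ^ n ∣ (x : ZMod (p ^ k))) :
    (p : ℤ) ^ n ∣ x := by
  obtain ⟨c, hc⟩ := h
  obtain ⟨d, rfl⟩ := ZMod.intCast_surjective c
  have h1 : ((x - p ^ n * d : ℤ) : ZMod (p ^ k)) = 0 := by push_cast; rw [hc, sub_self]
  rw [ZMod.intCast_zmod_eq_zero_iff_dvd] at h1
  have h2 : (p : ℤ) ^ n ∣ x - p ^ n * d := (pow_dvd_pow _ hn).trans (by exact_mod_cast h1)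
  simpa using h2.add (dvd_mul_right ((p : ℤ) ^ n) d)

theorem main (R : Type) [Ring R] [Finite R] [IsLocalRing R] :
    ∃ (C : Type) (_ : CommRing C) (n : ℕ) (f : R →+* Matrix (Fin n) (Fin n) C),
      Function.Injective f := by
  obtain ⟨p, k, l, f, a, lam, β, hp, hk, hm, ha, hc, hmul, hadd, hone, hinj⟩ := ex_lam R
  obtain ⟨X, hX⟩ := ex_gad p k ((l + 1) * k + 2 * l) (2 * (l + 1) ^ 2) hp hk
  obtain ⟨V, _, _, γ, E, hE, hE1, hlow, hhigh, hnd⟩ := ex_units l _ X hX
  have fl : ∀ i : Fin (l + 1), (i : ℕ) ≤ l := fun i => Nat.lt_succ_iff.1 i.2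
  let Ed := Fin (l + 1) × Fin (l + 1) × V × V
  let adm : Ed → Prop := fun e => E e.1 e.2.1 e.2.2.1 e.2.2.2 ≠ 0
  let co : Ed → ℕ := fun e => cst a e.1 e.2.1
  let A := AddMonoidAlgebra (ZMod (p ^ k)) ((Fin (l + 1) → ℤ) × (Fin l → X.Γ))
  let sC : Set A := {x | ∃ m : List Ed, (∀ t ∈ m, adm t) ∧
    x = AddMonoidAlgebra.single (m.map (dg γ)).sum ((p : ZMod (p ^ k)) ^ (m.map co).sum)}
  let sa : Set A := {x | ∃ (e : Ed) (m : List Ed), adm e ∧ (∀ t ∈ m, adm t) ∧
    x = AddMonoidAlgebra.single (dg γ e + (m.map (dg γ)).sum)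
      ((p : ZMod (p ^ k)) ^ (a e.1 + (m.map co).sum))}
  let c : ℤ →+* ZMod (p ^ k) := Int.castRingHom _
  have h1 : (1 : A) ∈ Submodule.span (ZMod (p ^ k)) sC :=
    Submodule.subset_span ⟨[], by simp, by simp; rfl⟩
  have ha' : ∀ M : Matrix (Fin f × Fin (l + 1)) (Fin f × Fin (l + 1)) ℤ,
      (∀ y z, (p : ℤ) ^ a y.2 ∣ M y z) → ∀ x y,
        Psi γ E (c.mapMatrix M) x y ∈ Submodule.span (ZMod (p ^ k)) sa := by
    intro M hM x y
    rw [Psi, Matrix.of_apply]; refine Submodule.sum_mem _ fun i _ => Submodule.sum_mem _ fun j _ => ?_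
    by_cases h : E i j x.2 y.2 = 0
    · simp [h]
    · obtain ⟨d, hd⟩ := hM (x.1, i) (y.1, j)
      have : (AddMonoidAlgebra.single (dg γ (i, j, x.2, y.2))
          (c.mapMatrix M (x.1, i) (y.1, j) * E i j x.2 y.2) : A) =
          ((d : ZMod (p ^ k)) * E i j x.2 y.2) • AddMonoidAlgebra.single (dg γ (i, j, x.2, y.2))
            ((p : ZMod (p ^ k)) ^ a i) := by
        rw [AddMonoidAlgebra.smul_single']
        congr 1
        simp [c, hd]; ring
      rw [this]
      exact Submodule.smul_mem _ _ (Submodule.subset_span ⟨(i, j, x.2, y.2), [], h, by simp, by simp⟩)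
  refine quot_rep (W := ZMod (p ^ k)) (Submodule.span _ sC) (Submodule.span _ sa) h1 ?_ ?_
    (fun r => Psi γ E (c.mapMatrix (lam r))) (fun r x y => ?_) (fun r r' x y => ?_)
    (fun r r' x y => ?_) (fun x y => ?_) (fun r hr => ?_)
  · rw [Submodule.span_mul_span]
    refine Submodule.span_mono ?_
    rintro _ ⟨_, ⟨m, hm, rfl⟩, _, ⟨m', hm', rfl⟩, rfl⟩
    refine ⟨m ++ m', fun t ht => (List.mem_append.1 ht).elim (hm t) (hm' t), ?_⟩
    simp only [List.map_append, List.sum_append, pow_add]
    exact AddMonoidAlgebra.single_mul_single _ _ _ _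
  · rw [Submodule.span_mul_span]
    refine Submodule.span_mono ?_
    rintro _ ⟨_, ⟨m, hm, rfl⟩, _, ⟨e, m', he, hm', rfl⟩, rfl⟩
    refine ⟨e, m ++ m', he, fun t ht => (List.mem_append.1 ht).elim (hm t) (hm' t), ?_⟩
    simp only [List.map_append, List.sum_append, pow_add]
    refine (AddMonoidAlgebra.single_mul_single _ _ _ _).trans ?_
    congr 1
    · abel
    · ring
  · obtain ⟨D, hD⟩ : ∃ D : Matrix (Fin f × Fin (l + 1)) (Fin f × Fin (l + 1)) (ZMod (p ^ k)),
      D = Matrix.of fun y z => if y.2 = z.2 then ((β r y.1 z.1 : ℤ) : ZMod (p ^ k)) else 0 := ⟨_, rfl⟩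
    rw [← sub_add_cancel (c.mapMatrix (lam r)) D, Psi_add, Matrix.add_apply]
    refine add_mem ?_ ?_
    · rw [Psi, Matrix.of_apply]; refine Submodule.sum_mem _ fun i _ => Submodule.sum_mem _ fun j _ => ?_
      by_cases h : E i j x.2 y.2 = 0
      · simp [h]
      · obtain ⟨d, hd⟩ := hc r (x.1, i) (y.1, j)
        have h2 : (c.mapMatrix (lam r) - D) (x.1, i) (y.1, j) = (p : ZMod (p ^ k)) ^ cst a i j * d := by
          have := congrArg c hd
          simpa [c, hD] using this
        have : (AddMonoidAlgebra.single (dg γ (i, j, x.2, y.2))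
            ((c.mapMatrix (lam r) - D) (x.1, i) (y.1, j) * E i j x.2 y.2) : A) =
            ((d : ZMod (p ^ k)) * E i j x.2 y.2) • AddMonoidAlgebra.single (dg γ (i, j, x.2, y.2))
              ((p : ZMod (p ^ k)) ^ cst a i j) := by
          rw [AddMonoidAlgebra.smul_single', h2]
          congr 1
          ring
        rw [this]
        exact Submodule.smul_mem _ _ (Submodule.subset_span ⟨[(i, j, x.2, y.2)], by simpa using h,
          by simp [co]⟩)
    · rw [hD, Psi_diag γ E hE1 fun s s' => ((β r s s' : ℤ) : ZMod (p ^ k))]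
      split_ifs
      · have : (AddMonoidAlgebra.single 0 ((β r x.1 y.1 : ℤ) : ZMod (p ^ k)) : A) =
            ((β r x.1 y.1 : ℤ) : ZMod (p ^ k)) • (1 : A) := by
          rw [AddMonoidAlgebra.one_def, AddMonoidAlgebra.smul_single', mul_one]
        rw [this]
        exact Submodule.smul_mem _ _ h1
      · exact zero_mem _
  · rw [← Psi_mul γ E hE, ← Psi_sub, ← map_mul, ← map_sub]
    exact ha' _ (hmul r r') x y
  · rw [← Psi_add, ← Psi_sub, ← map_add, ← map_sub]
    exact ha' _ (hadd r r') x y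
  · rw [← Psi_one (F := Fin f) γ E hE1, ← Psi_sub, ← map_one c.mapMatrix, ← map_sub]
    exact ha' _ hone x y
  · refine hinj r fun ⟨s, i⟩ ⟨s', j⟩ => zdvd (ha i (fl i)).2 ?_
    obtain ⟨α, β', hz, hs⟩ := hnd i j
    have key : ∀ v w, α v ≠ 0 → β' w ≠ 0 → ∀ x ∈ Submodule.span (ZMod (p ^ k)) sa,
        (p : ZMod (p ^ k)) ^ a i ∣ x.coeff (dg γ (i, j, v, w)) := by
      intro v w hv hw x hx
      induction hx using Submodule.span_induction with
      | zero => simp
      | add x y _ _ h1 h2 => exact dvd_add h1 h2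
      | smul t x _ h1 => exact h1.mul_left t
      | mem x hx =>
        obtain ⟨e, m, he, hm', rfl⟩ := hx
        by_cases hd : dg γ e + (m.map (dg γ)).sum = dg γ (i, j, v, w)
        · rw [hd, AddMonoidAlgebra.coeff_single, Finsupp.single_eq_same]
          refine pow_dvd_pow _ (key_cost a hm ha le_rfl X.S X.girth (fun t : Ed => t.1)
            (fun t => t.2.1) (fun t => fl _) (fun t => γ t.2.2.1 - γ t.2.2.2) adm
            (fun t c h => hlow _ _ _ _ c h) (fun t c h => hhigh _ _ _ _ c h) e he m hm' i j (fl i)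
            (fl j) (fun φ => ?_) fun c h1 h2 => ?_)
          · let Φ : ((Fin (l + 1) → ℤ) × (Fin l → X.Γ)) →+ ℤ :=
              { toFun := fun y => ∑ t : Fin (l + 1), φ t * y.1 t
                map_zero' := by simp
                map_add' := fun y z => by simp [mul_add, sum_add_distrib] }
            have h3 : ∀ t : Ed, Φ (dg γ t) = φ t.1 - φ t.2.1 := fun t => by
              simp [Φ, dg, mul_sub, Pi.single_apply]
            have h4 := congrArg Φ hd
            rw [map_add, map_list_sum, List.map_map, h3, h3] at h4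
            rw [← h4]
            congr 2
            exact List.map_congr_left fun t _ => (h3 t).symm
          · let Φ : ((Fin (l + 1) → ℤ) × (Fin l → X.Γ)) →+ X.Γ :=
              { toFun := fun y => y.2 c
                map_zero' := by simp
                map_add' := fun y z => by simp }
            have h4 := congrArg Φ hd
            rw [map_add, map_list_sum, List.map_map] at h4
            exact h4.trans (hz v w c hv hw h1 h2)
        · rw [AddMonoidAlgebra.coeff_single, Finsupp.single_eq_of_ne' hd]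
          exact dvd_zero _
    classical
    have hco : ∀ v w, (Psi γ E (c.mapMatrix (lam r)) (s, v) (s', w)).coeff (dg γ (i, j, v, w)) =
        ∑ i', ∑ j', (if (Pi.single i' 1 - Pi.single j' 1 : Fin (l + 1) → ℤ) =
          Pi.single i 1 - Pi.single j 1 then (lam r (s, i') (s', j') : ZMod (p ^ k)) else 0) *
          E i' j' v w := by
      intro v w
      simp only [Psi, Matrix.of_apply, AddMonoidAlgebra.coeff_sum, Finsupp.finsetSum_apply,
        AddMonoidAlgebra.coeff_single, Finsupp.single_apply, dg, Prod.mk.injEq, and_true]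
      refine sum_congr rfl fun i' _ => sum_congr rfl fun j' _ => ?_
      split_ifs <;> simp [c]
    have hsum : ∑ v, ∑ w, α v *
        (Psi γ E (c.mapMatrix (lam r)) (s, v) (s', w)).coeff (dg γ (i, j, v, w)) * β' w =
        (lam r (s, i) (s', j) : ZMod (p ^ k)) := by
      simp only [hco]
      generalize hq : (fun i' j' : Fin (l + 1) =>
        if (Pi.single i' 1 - Pi.single j' 1 : Fin (l + 1) → ℤ) =
          Pi.single i 1 - Pi.single j 1 then (lam r (s, i') (s', j') : ZMod (p ^ k)) else 0) = q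
      have hq' : ∀ i' j', (if (Pi.single i' 1 - Pi.single j' 1 : Fin (l + 1) → ℤ) =
          Pi.single i 1 - Pi.single j 1 then (lam r (s, i') (s', j') : ZMod (p ^ k)) else 0) =
          q i' j' := fun i' j' => congrFun (congrFun hq i') j'
      simp only [hq']
      have e1 : ∑ v, ∑ w, α v * (∑ i', ∑ j', q i' j' * E i' j' v w) * β' w =
          ∑ i', ∑ j', q i' j' * ∑ v, ∑ w, α v * E i' j' v w * β' w := by
        simp only [mul_sum, sum_mul]
        rw [sum_congr rfl fun v _ => sum_comm, sum_comm]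
        refine sum_congr rfl fun i' _ => ?_
        rw [sum_congr rfl fun v _ => sum_comm, sum_comm]
        exact sum_congr rfl fun j' _ => sum_congr rfl fun v _ => sum_congr rfl fun w _ => by ring
      rw [e1]
      simp only [hs, ite_and, mul_ite, mul_one, mul_zero]
      rw [sum_eq_single i (fun y _ hy => by simp [hy]) (by simp)]
      simp [← hq']
    rw [← hsum]
    refine dvd_sum fun v _ => dvd_sum fun w _ => ?_
    by_cases hv : α v = 0
    · simp [hv]
    by_cases hw : β' w = 0
    · simp [hw]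
    exact ((key v w hv hw _ (hr _ _)).mul_left _).mul_right _

end Pool.Agent.H.MP_4a16d5_al
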